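import Pool.Agent.U423.FP.Tab

/-!
# An extremal drawing on four vertices
-/

set_option autoImplicit false

namespace Pool.Agent.U423.FP

open Pool.Agent.Q238.FP

/-- the drawing with 4 vertices and 8 edges -/
def data4 : Data (Fin 4) (Fin 8) where
  vert := tvert 4 0x1020301000103000300030202010200
  len := tlen 0x100000101000100
  cr := tcr 0x100000101000100
    0x30000000000000000000000000000000000000000000000010000000000000007000000000000000000000000000000040000000000000000
    0x0
  toLeft := tleft 0x10000000000000000000000000000000000000000000000000000000000000000000000000000000000000000000000010000000000000000
  rot :=
    { toFun := tend 0xc010702080f0d00050b090e040a0306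
      invFun := tend 0xa04090f0602050b0d000703010c0e08
      left_inv := by unfold Function.LeftInverse; decide +kernel
      right_inv := by unfold Function.RightInverse Function.LeftInverse; decide +kernel }
  cr_cr := by decide +kernel
  toLeft_cr := by decide +kernel
  rot_vert := rot_vert_of _ (tcorner 0x9010a0b) (by decide +kernel) (by decide +kernel)

/-- its certificate -/
def cert4 : Cert data4 8 where
  face := tface 8 0x602030000000000000000000000000000000607000000000000000000000000000005020000000000000000000000000704050100000000000000000000000003060002000000000000000000000000000004030000000000000000000000000401070500000000000000000000000000000100
  corner := tcorner 0x9010a0b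
  rep := tdart _ 0x103010102030000
    0x102000300000100
  par := tdart _ 0x407040107030000
    0x303010301000100
  mask := tmask 0xd80000000000000000000000000000000000000000000000e40000000000000000000000000000000000000000000000000000000000000000
  unc := 0
  pos := by decide +kernel
  face_next := by decide +kernel
  vert_corner := by decide +kernel
  orbit := by decide +kernel
  face_rep := by decide +kernel
  par_face := by decide +kernel
  euler := by decide +kernel
  loopless := by decide +kernel
  simple1 := by decide +kernel
  simple2 := by decide +kernel
  fan := by decide +kernel
  unc_len := by decide +kernel
  region := by decide +kernel

theorem good4 : Good 4 8 := cert4.good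

end Pool.Agent.U423.FP
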