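import Pool.Agent.U423.FP.Tab

/-!
# An extremal drawing on five vertices
-/

set_option autoImplicit false

namespace Pool.Agent.U423.FP

open Pool.Agent.Q238.FP

/-- the drawing with 5 vertices and 15 edges -/
def data5 : Data (Fin 5) (Fin 15) where
  vert := tvert 5 0x10002000301010300040300040203040204030400020104020301020100
  len := tlen 0x20202020000020202020200000002
  cr := tcr 0x20202020000020202020200000002
    0x8070000000000000b050000000000000408000000000000060d000000000000000000000000000000000000000000000e0c000000000000040e0000000000000b000000000000000d00000000000000070c0000000000000000000000000000000000000000000000000000000000000605
    0x10000000000000000010000000000000000000000000000010100000000000000000000000000000000000000000000010000000000000001000000000000000101000000000000000000000000000001010000000000000000000000000000000000000000000000000000000000000000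
  toLeft := tleft 0x100000000000001000000000000000101000000000000000000000000000000000000000000000000000000000000010000000000000001000000000000000101000000000000010100000000000000000000000000000000000000000000000000000000000000000000000000000000
  rot :=
    { toFun := tend 0x18150d120f030104000e0b0906081311020a16141c051d0c1b191710071a
      invFun := tend 0x7090500041d030b1c0a0f1a0e0219141b06130c121001110816180d1715
      left_inv := by unfold Function.LeftInverse; decide +kernel
      right_inv := by unfold Function.RightInverse Function.LeftInverse; decide +kernel }
  cr_cr := by decide +kernel
  toLeft_cr := by decide +kernel
  rot_vert := rot_vert_of _ (tcorner 0x11160d0315) (by decide +kernel) (by decide +kernel)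

/-- its certificate -/
def cert5 : Cert data5 22 where
  face := tface 22 0x1410110b0c0500000000000000000000080d03060002000000000000000000000e121115141300000000000000000000090f0308060d000000000000000000000000000001050000000000000000000000000000020700000000000000000000100b1411131500000000000000000000070e0c11050b000000000000000000000f0809030a0400000000000000000000060203000401000000000000000000000c07110e15120000000000000000000000000000100a00000000000000000000000000000d1200000000000000000000000000000f13000000000000000000000a0904030100
  corner := tcorner 0x11160d0315
  rep := tdart _ 0x4080102040301040204070000060405070000050000
    0x1030000030101020105000504040405010302040100
  par := tdart _ 0xc0e01020e0306070b0e0706060b09050a05050d0000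
    0x2050000030105040001000103020005000103000100
  mask := tmask 0x10c3200000000000460c400000000002ca100000000000000000000000000000000000000000000000000000000000019860000000000003fef580000000000000000000000000000000000000000000000000000000000000000000000000000000000000000000000000000000000000000
  unc := 1
  pos := by decide +kernel
  face_next := by decide +kernel
  vert_corner := by decide +kernel
  orbit := by decide +kernel
  face_rep := by decide +kernel
  par_face := by decide +kernel
  euler := by decide +kernel
  loopless := by decide +kernel
  simple1 := by decide +kernel
  simple2 := by decide +kernel
  fan := by decide +kernel
  unc_len := by decide +kernel
  region := by decide +kernel

theorem good5 : Good 5 15 := cert5.good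

end Pool.Agent.U423.FP
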