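import Pool.Agent.U423.FP.Tab

/-!
# An extremal drawing on six vertices
-/

set_option autoImplicit false

namespace Pool.Agent.U423.FP

open Pool.Agent.Q238.FP

/-- the drawing with 6 vertices and 20 edges -/
def data6 : Data (Fin 6) (Fin 20) where
  vert := tvert 6 0x5010004020002030403030204020300000103010503000502010301000102050104020400040504
  len := tlen 0x103000200030200020201010003030100030201
  cr := tcr 0x103000200030200020201010003030100030201
    0x200000000000e090600000000000000000000000000000b01000000000000000000000000001208050000000000000a0b0000000000000000000000000000100d000000000000010d0000000000000012000000000000000e0000000000000000000000000012000200000000000e0402000000000000000500000000000000000000000000051306000000000000100a0000000000000006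
    0x10000000000020002000000000000000000000000000001010000000000000000000000000002000200000000000000000000000000000000000000000000010000000000000000010000000000000001000000000000000100000000000000000000000000000000000000000000000200000000000000010000000000000000000000000000000000000000000000010000000000000001
  toLeft := tleft 0x10001000000000000000000000000000000000000000000000000000000000000000000000000000001010000000000000000000000000000010000000000000001000000000000000001000000000000000100000000000000000000000000000000000000000001000000000000000000010000000000000000000000000001010100000000000001000000000000000001
  rot :=
    { toFun := tend 0x10a1800210b1a1924151223020f1d0322142007100d250805161e26110e1c270c1b0906171f1304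
      invFun := tend 0x80c111f1c172315020d190906212025030e1e16011d0b131a0a12072226051014040f00181b2724
      left_inv := by unfold Function.LeftInverse; decide +kernel
      right_inv := by unfold Function.RightInverse Function.LeftInverse; decide +kernel }
  cr_cr := by decide +kernel
  toLeft_cr := by decide +kernel
  rot_vert := rot_vert_of _ (tcorner 0x802201c0a17) (by decide +kernel) (by decide +kernel)

/-- its certificate -/
def cert6 : Cert data6 31 where
  face := tface 31 0x308070e0000000000000000191112090a04050100000000000000000000000000001e1d000000000000000000001c1e141b131a0000000000000000000000000000050b0000000000000000121909111018171d000000000000000000000c06140d1c150000000000000000000000000000191a000000000000000000001e1b1c14150d00000000000000000000130b140c0d060000000000000000000000000904120a00000000000000000000000011180910000000000000000000000000000016150000000000000000050a0104000302070000000000000000181d1017080f0e16000000000000000000000000170f10080000000000000000000000000000020600000000000000000f16080e03070002000000000000000000001b1a14130c0b00000000000000000000000004030100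
  corner := tcorner 0x802201c0a17
  rep := tdart _ 0xb050b01010c05040207010109080402020a01010608020203060000020000
    0x5060305040107030600030201030107040101000601050200070302000100
  par := tdart _ 0xb0e0b1010120e04050b0a0a120e0405130a0d0f1209130603120606020000
    0x5000302000702030001030505040102000105000303020000010402000100
  mask := tmask 0x60c0c200000000000000000000000006f0200000000000000000000000000000000000000000000006060c400000000000000000000000070e08000000000007fffe7980000000000000000000000000000000000000000000000000000000000000000000000000000000000000000000000000000000000000000000000000000000000000000000000000000000000000000
  unc := 3
  pos := by decide +kernel
  face_next := by decide +kernel
  vert_corner := by decide +kernel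
  orbit := by decide +kernel
  face_rep := by decide +kernel
  par_face := by decide +kernel
  euler := by decide +kernel
  loopless := by decide +kernel
  simple1 := by decide +kernel
  simple2 := by decide +kernel
  fan := by decide +kernel
  unc_len := by decide +kernel
  region := by decide +kernel

theorem good6 : Good 6 20 := cert6.good

end Pool.Agent.U423.FP
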