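import Pool.Agent.U423.FP.Tab

/-!
# An extremal drawing on three vertices
-/

set_option autoImplicit false

namespace Pool.Agent.U423.FP

open Pool.Agent.Q238.FP

/-- the drawing with 3 vertices and 3 edges -/
def data3 : Data (Fin 3) (Fin 3) where
  vert := tvert 3 0x202010100
  len := tlen 0x0
  cr := tcr 0x0
    0x0
    0x0
  toLeft := tleft 0x0
  rot :=
    { toFun := tend 0x304010205
      invFun := tend 0x304010205
      left_inv := by unfold Function.LeftInverse; decide +kernel
      right_inv := by unfold Function.RightInverse Function.LeftInverse; decide +kernel }
  cr_cr := by decide +kernel
  toLeft_cr := by decide +kernel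
  rot_vert := rot_vert_of _ (tcorner 0x40200) (by decide +kernel) (by decide +kernel)

/-- its certificate -/
def cert3 : Cert data3 2 where
  face := tface 2 0x1000000000000000000000000000000010000000000000000000000000000000100
  corner := tcorner 0x40200
  rep := tdart _ 0x0
    0x100
  par := tdart _ 0x0
    0x100
  mask := tmask 0x0
  unc := 0
  pos := by decide +kernel
  face_next := by decide +kernel
  vert_corner := by decide +kernel
  orbit := by decide +kernel
  face_rep := by decide +kernel
  par_face := by decide +kernel
  euler := by decide +kernel
  loopless := by decide +kernel
  simple1 := by decide +kernel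
  simple2 := by decide +kernel
  fan := by decide +kernel
  unc_len := by decide +kernel
  region := by decide +kernel

theorem good3 : Good 3 3 := cert3.good

end Pool.Agent.U423.FP
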