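import Pool.Agent.U423.FP.Small

/-!
# Gluing two drawings along uncrossed edges: the combinatorial data
-/

set_option autoImplicit false

namespace Pool.Agent.U423.FP

open Pool.Agent.Q238.FP

/-- the vertices of the glued drawing -/
abbrev GV (V₁ : Type) {V₂ E₂ : Type} (G₂ : Data V₂ E₂) (e₂ : E₂) : Type :=
  V₁ ⊕ {v : V₂ // v ≠ G₂.vert (e₂, false) ∧ v ≠ G₂.vert (e₂, true)}

variable {V₁ E₁ V₂ E₂ : Type} (G₁ : Data V₁ E₁) (G₂ : Data V₂ E₂) (e₁ : E₁) (e₂ : E₂)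

open Classical in
/-- where a vertex of the second drawing goes -/
noncomputable def phi (v : V₂) : GV V₁ G₂ e₂ :=
  if h : v = G₂.vert (e₂, false) then Sum.inl (G₁.vert (e₁, false))
  else if h' : v = G₂.vert (e₂, true) then Sum.inl (G₁.vert (e₁, true))
  else Sum.inr ⟨v, h, h'⟩

theorem phi_false : phi G₁ G₂ e₁ e₂ (G₂.vert (e₂, false)) = Sum.inl (G₁.vert (e₁, false)) := by
  simp [phi]

theorem phi_true (h2 : G₂.vert (e₂, false) ≠ G₂.vert (e₂, true)) :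
    phi G₁ G₂ e₁ e₂ (G₂.vert (e₂, true)) = Sum.inl (G₁.vert (e₁, true)) := by
  simp [phi, h2.symm]

theorem phi_other (v : V₂) (h : v ≠ G₂.vert (e₂, false)) (h' : v ≠ G₂.vert (e₂, true)) :
    phi G₁ G₂ e₁ e₂ v = Sum.inr ⟨v, h, h'⟩ := by
  simp [phi, h, h']

theorem phi_eq_inl (h2 : G₂.vert (e₂, false) ≠ G₂.vert (e₂, true)) (v : V₂) (w : V₁)
    (h : phi G₁ G₂ e₁ e₂ v = Sum.inl w) :
    (v = G₂.vert (e₂, false) ∧ w = G₁.vert (e₁, false)) ∨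
      (v = G₂.vert (e₂, true) ∧ w = G₁.vert (e₁, true)) := by
  by_cases h1 : v = G₂.vert (e₂, false)
  · subst h1
    rw [phi_false] at h
    exact Or.inl ⟨rfl, (Sum.inl_injective h).symm⟩
  · by_cases h3 : v = G₂.vert (e₂, true)
    · subst h3
      rw [phi_true G₁ G₂ e₁ e₂ h2] at h
      exact Or.inr ⟨rfl, (Sum.inl_injective h).symm⟩
    · rw [phi_other G₁ G₂ e₁ e₂ v h1 h3] at h
      exact absurd h (by simp)

theorem phi_inj (h1 : G₁.vert (e₁, false) ≠ G₁.vert (e₁, true))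
    (h2 : G₂.vert (e₂, false) ≠ G₂.vert (e₂, true)) : Function.Injective (phi G₁ G₂ e₁ e₂) := by
  intro v w h
  rcases hw : phi G₁ G₂ e₁ e₂ w with a | a
  · rw [hw] at h
    rcases phi_eq_inl G₁ G₂ e₁ e₂ h2 v a h with ⟨g1, g2⟩ | ⟨g1, g2⟩ <;>
      rcases phi_eq_inl G₁ G₂ e₁ e₂ h2 w a hw with ⟨g3, g4⟩ | ⟨g3, g4⟩
    · rw [g1, g3]
    · exact absurd (g2.symm.trans g4) h1
    · exact absurd (g4.symm.trans g2) h1
    · rw [g1, g3]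
  · have k : ∀ u, phi G₁ G₂ e₁ e₂ u = Sum.inr a → u = a.1 := by
      intro u hu
      by_cases g1 : u = G₂.vert (e₂, false)
      · rw [g1, phi_false] at hu
        exact absurd hu (by simp)
      · by_cases g3 : u = G₂.vert (e₂, true)
        · rw [g3, phi_true G₁ G₂ e₁ e₂ h2] at hu
          exact absurd hu (by simp)
        · rw [phi_other G₁ G₂ e₁ e₂ u g1 g3] at hu
          exact congrArg Subtype.val (Sum.inr_injective hu)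
    rw [k v (h.trans hw), k w hw]

/-- edge ends of the first drawing -/
def k1 (x : E₁ × Bool) : (E₁ ⊕ E₂) × Bool := (Sum.inl x.1, x.2)

/-- edge ends of the second drawing -/
def k2 (x : E₂ × Bool) : (E₁ ⊕ E₂) × Bool := (Sum.inr x.1, x.2)

theorem k1_inj : Function.Injective (k1 : E₁ × Bool → (E₁ ⊕ E₂) × Bool) := by
  rintro ⟨a, b⟩ ⟨c, d⟩ h
  simp only [k1, Prod.mk.injEq, Sum.inl.injEq] at h
  rw [h.1, h.2]

theorem k2_inj : Function.Injective (k2 : E₂ × Bool → (E₁ ⊕ E₂) × Bool) := by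
  rintro ⟨a, b⟩ ⟨c, d⟩ h
  simp only [k2, Prod.mk.injEq, Sum.inr.injEq] at h
  rw [h.1, h.2]

theorem k12 (x : E₁ × Bool) (y : E₂ × Bool) : (k1 x : (E₁ ⊕ E₂) × Bool) ≠ k2 y := by
  simp [k1, k2]

theorem k_cases (z : (E₁ ⊕ E₂) × Bool) : (∃ x, z = k1 x) ∨ ∃ y, z = k2 y := by
  rcases z with ⟨a | a, b⟩
  · exact Or.inl ⟨(a, b), rfl⟩
  · exact Or.inr ⟨(a, b), rfl⟩

/-- the vertex of an edge end -/
noncomputable def gvert (x : (E₁ ⊕ E₂) × Bool) : GV V₁ G₂ e₂ :=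
  match x with
  | (Sum.inl e, b) => Sum.inl (G₁.vert (e, b))
  | (Sum.inr e, b) => phi G₁ G₂ e₁ e₂ (G₂.vert (e, b))

theorem gvert_k1 (x : E₁ × Bool) : gvert G₁ G₂ e₁ e₂ (k1 x) = Sum.inl (G₁.vert x) := rfl

theorem gvert_k2 (x : E₂ × Bool) :
    gvert G₁ G₂ e₁ e₂ (k2 x) = phi G₁ G₂ e₁ e₂ (G₂.vert x) := rfl

/-- the two rotations side by side -/
def rho : Equiv.Perm ((E₁ ⊕ E₂) × Bool) :=
  (Equiv.sumProdDistrib E₁ E₂ Bool).symm.permCongr (Equiv.Perm.sumCongr G₁.rot G₂.rot)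

theorem rho_k1 (x : E₁ × Bool) : rho G₁ G₂ (k1 x) = k1 (G₁.rot x) := rfl

theorem rho_k2 (x : E₂ × Bool) : rho G₁ G₂ (k2 x) = k2 (G₂.rot x) := rfl

open Classical in
/-- exchange of the two last ends -/
noncomputable def sw (b : Bool) : Equiv.Perm ((E₁ ⊕ E₂) × Bool) :=
  Equiv.swap (k1 (e₁, b)) (k2 (e₂, b))

theorem sw_left (b : Bool) : sw e₁ e₂ b (k1 (e₁, b)) = k2 (e₂, b) := by
  classical
  unfold sw
  exact Equiv.swap_apply_left _ _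

theorem sw_right (b : Bool) : sw e₁ e₂ b (k2 (e₂, b)) = k1 (e₁, b) := by
  classical
  unfold sw
  exact Equiv.swap_apply_right _ _

theorem sw_other (b : Bool) (x : (E₁ ⊕ E₂) × Bool) (h1 : x ≠ k1 (e₁, b)) (h2 : x ≠ k2 (e₂, b)) :
    sw e₁ e₂ b x = x := by
  classical
  unfold sw
  exact Equiv.swap_apply_of_ne_of_ne h1 h2

theorem sw_sw (b : Bool) (x : (E₁ ⊕ E₂) × Bool) : sw e₁ e₂ b (sw e₁ e₂ b x) = x := by
  classical
  unfold sw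
  exact Equiv.swap_apply_self _ _ _

/-- the rotation of the glued drawing -/
noncomputable def grot : Equiv.Perm ((E₁ ⊕ E₂) × Bool) :=
  sw e₁ e₂ true * rho G₁ G₂ * sw e₁ e₂ false

theorem grot_apply (x : (E₁ ⊕ E₂) × Bool) :
    grot G₁ G₂ e₁ e₂ x = sw e₁ e₂ true (rho G₁ G₂ (sw e₁ e₂ false x)) := rfl

variable (h1 : G₁.vert (e₁, false) ≠ G₁.vert (e₁, true))
  (h2 : G₂.vert (e₂, false) ≠ G₂.vert (e₂, true))

include h2 in
theorem gvert_ends (b : Bool) :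
    gvert G₁ G₂ e₁ e₂ (k2 (e₂, b)) = gvert G₁ G₂ e₁ e₂ (k1 (e₁, b)) := by
  cases b
  · exact phi_false G₁ G₂ e₁ e₂
  · exact phi_true G₁ G₂ e₁ e₂ h2

include h2 in
theorem gvert_sw (b : Bool) (x : (E₁ ⊕ E₂) × Bool) :
    gvert G₁ G₂ e₁ e₂ (sw e₁ e₂ b x) = gvert G₁ G₂ e₁ e₂ x := by
  by_cases g1 : x = k1 (e₁, b)
  · rw [g1, sw_left, gvert_ends G₁ G₂ e₁ e₂ h2]
  · by_cases g2 : x = k2 (e₂, b)
    · rw [g2, sw_right, gvert_ends G₁ G₂ e₁ e₂ h2]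
    · rw [sw_other e₁ e₂ b x g1 g2]

theorem gvert_rho (x : (E₁ ⊕ E₂) × Bool) :
    gvert G₁ G₂ e₁ e₂ (rho G₁ G₂ x) = gvert G₁ G₂ e₁ e₂ x := by
  rcases k_cases x with ⟨y, rfl⟩ | ⟨y, rfl⟩
  · rw [rho_k1, gvert_k1, gvert_k1, G₁.vert_rot]
  · rw [rho_k2, gvert_k2, gvert_k2, G₂.vert_rot]

include h2 in
theorem gvert_grot (x : (E₁ ⊕ E₂) × Bool) :
    gvert G₁ G₂ e₁ e₂ (grot G₁ G₂ e₁ e₂ x) = gvert G₁ G₂ e₁ e₂ x := by
  rw [grot_apply, gvert_sw G₁ G₂ e₁ e₂ h2, gvert_rho, gvert_sw G₁ G₂ e₁ e₂ h2]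

/-- the same cycle of the glued rotation -/
abbrev Rel (x y : (E₁ ⊕ E₂) × Bool) : Prop := (grot G₁ G₂ e₁ e₂).SameCycle x y

theorem rel_grot (x y : (E₁ ⊕ E₂) × Bool) (h : Rel G₁ G₂ e₁ e₂ x y) :
    Rel G₁ G₂ e₁ e₂ x (grot G₁ G₂ e₁ e₂ y) := Equiv.Perm.sameCycle_apply_right.2 h

include h1 in
theorem relf [Finite E₁] : Rel G₁ G₂ e₁ e₂ (k2 (e₂, false)) (k1 (e₁, false)) := by
  have key : ∀ i : ℕ, Rel G₁ G₂ e₁ e₂ (k2 (e₂, false)) (k1 ((G₁.rot ^ (i + 1)) (e₁, false))) ∧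
      G₁.vert ((G₁.rot ^ (i + 1)) (e₁, false)) = G₁.vert (e₁, false) := by
    have base : Rel G₁ G₂ e₁ e₂ (k2 (e₂, false)) (k1 (G₁.rot (e₁, false))) ∧
        G₁.vert (G₁.rot (e₁, false)) = G₁.vert (e₁, false) := by
      refine ⟨?_, G₁.vert_rot _⟩
      have h3 := rel_grot G₁ G₂ e₁ e₂ _ _ (Equiv.Perm.SameCycle.refl _ (k2 (e₂, false)))
      rw [grot_apply, sw_right, rho_k1, sw_other] at h3
      · exact h3
      · intro h4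
        have h5 := k1_inj h4
        apply h1
        rw [← h5, G₁.vert_rot]
      · exact k12 _ _
    intro i
    induction i with
    | zero => simpa using base
    | succ i ih =>
      rw [pow_succ', Equiv.Perm.mul_apply]
      refine ⟨?_, by rw [G₁.vert_rot, ih.2]⟩
      by_cases hz : (G₁.rot ^ (i + 1)) (e₁, false) = (e₁, false)
      · rw [hz]
        exact base.1
      · have h3 := rel_grot G₁ G₂ e₁ e₂ _ _ ih.1
        rw [grot_apply, sw_other e₁ e₂ false _ (fun h => hz (k1_inj h)) (k12 _ _), rho_k1,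
          sw_other] at h3
        · exact h3
        · intro h4
          have h5 := k1_inj h4
          apply h1
          rw [← h5, G₁.vert_rot, ih.2]
        · exact k12 _ _
  have hN : 0 < orderOf G₁.rot := orderOf_pos _
  obtain ⟨m, hm⟩ : ∃ m, orderOf G₁.rot = m + 1 := ⟨orderOf G₁.rot - 1, by omega⟩
  have := (key m).1
  rw [← hm, pow_orderOf_eq_one] at this
  exact this

include h1 in
theorem relt [Finite E₁] : Rel G₁ G₂ e₁ e₂ (k1 (e₁, true)) (k2 (e₂, true)) := by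
  by_contra hcon
  have key : ∀ i : ℕ, Rel G₁ G₂ e₁ e₂ (k1 (e₁, true)) (k1 ((G₁.rot ^ i) (e₁, true))) ∧
      G₁.vert ((G₁.rot ^ i) (e₁, true)) = G₁.vert (e₁, true) ∧
      G₁.rot ((G₁.rot ^ i) (e₁, true)) ≠ (e₁, true) := by
    have last : ∀ z : E₁ × Bool, Rel G₁ G₂ e₁ e₂ (k1 (e₁, true)) (k1 z) →
        G₁.vert z = G₁.vert (e₁, true) → G₁.rot z ≠ (e₁, true) := by
      intro z hz hv hr
      apply hcon
      have h3 := rel_grot G₁ G₂ e₁ e₂ _ _ hz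
      rw [grot_apply, sw_other e₁ e₂ false _ (fun h => h1 (by rw [← hv, k1_inj h])) (k12 _ _),
        rho_k1, hr, sw_left] at h3
      exact h3
    intro i
    induction i with
    | zero => exact ⟨Equiv.Perm.SameCycle.refl _ _, rfl, last _ (Equiv.Perm.SameCycle.refl _ _) rfl⟩
    | succ i ih =>
      rw [pow_succ', Equiv.Perm.mul_apply]
      obtain ⟨i1, i2, i3⟩ := ih
      have h3 := rel_grot G₁ G₂ e₁ e₂ _ _ i1
      rw [grot_apply, sw_other e₁ e₂ false _ (fun h => h1 (by rw [← i2, k1_inj h])) (k12 _ _),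
        rho_k1, sw_other e₁ e₂ true _ (fun h => i3 (k1_inj h)) (k12 _ _)] at h3
      exact ⟨h3, by rw [G₁.vert_rot, i2], last _ h3 (by rw [G₁.vert_rot, i2])⟩
  have hN : 0 < orderOf G₁.rot := orderOf_pos _
  obtain ⟨m, hm⟩ : ∃ m, orderOf G₁.rot = m + 1 := ⟨orderOf G₁.rot - 1, by omega⟩
  apply (key m).2.2
  rw [← Equiv.Perm.mul_apply, ← pow_succ', ← hm, pow_orderOf_eq_one]
  rfl

include h1 in
theorem rel_sw [Finite E₁] (b : Bool) (x : (E₁ ⊕ E₂) × Bool) :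
    Rel G₁ G₂ e₁ e₂ x (sw e₁ e₂ b x) := by
  have hb : Rel G₁ G₂ e₁ e₂ (k1 (e₁, b)) (k2 (e₂, b)) := by
    cases b
    · exact (relf G₁ G₂ e₁ e₂ h1).symm
    · exact relt G₁ G₂ e₁ e₂ h1
  by_cases g1 : x = k1 (e₁, b)
  · rw [g1, sw_left]
    exact hb
  · by_cases g2 : x = k2 (e₂, b)
    · rw [g2, sw_right]
      exact hb.symm
    · rw [sw_other e₁ e₂ b x g1 g2]

include h1 in
theorem rel_rho [Finite E₁] (x : (E₁ ⊕ E₂) × Bool) : Rel G₁ G₂ e₁ e₂ x (rho G₁ G₂ x) := by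
  have a1 := rel_sw G₁ G₂ e₁ e₂ h1 false x
  have a2 := rel_grot G₁ G₂ e₁ e₂ _ _ a1
  rw [grot_apply, sw_sw] at a2
  exact a2.trans (rel_sw G₁ G₂ e₁ e₂ h1 true _).symm

include h1 in
theorem rel_rho_pow [Finite E₁] (x : (E₁ ⊕ E₂) × Bool) (i : ℕ) :
    Rel G₁ G₂ e₁ e₂ x ((rho G₁ G₂ ^ i) x) := by
  induction i with
  | zero => exact Equiv.Perm.SameCycle.refl _ _
  | succ i ih =>
    rw [pow_succ', Equiv.Perm.mul_apply]
    exact ih.trans (rel_rho G₁ G₂ e₁ e₂ h1 _)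

theorem rho_pow_k1 (x : E₁ × Bool) (i : ℕ) : (rho G₁ G₂ ^ i) (k1 x) = k1 ((G₁.rot ^ i) x) := by
  induction i with
  | zero => rfl
  | succ i ih => rw [pow_succ', Equiv.Perm.mul_apply, ih, rho_k1, pow_succ', Equiv.Perm.mul_apply]

theorem rho_pow_k2 (x : E₂ × Bool) (i : ℕ) : (rho G₁ G₂ ^ i) (k2 x) = k2 ((G₂.rot ^ i) x) := by
  induction i with
  | zero => rfl
  | succ i ih => rw [pow_succ', Equiv.Perm.mul_apply, ih, rho_k2, pow_succ', Equiv.Perm.mul_apply]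

include h1 in
theorem rel_k1 [Finite E₁] (x y : E₁ × Bool) (h : G₁.vert x = G₁.vert y) :
    Rel G₁ G₂ e₁ e₂ (k1 x) (k1 y) := by
  obtain ⟨i, hi⟩ := ((G₁.rot_vert x y).2 h).exists_nat_pow_eq
  rw [← hi, ← rho_pow_k1 G₁ G₂]
  exact rel_rho_pow G₁ G₂ e₁ e₂ h1 _ i

include h1 in
theorem rel_k2 [Finite E₁] [Finite E₂] (x y : E₂ × Bool) (h : G₂.vert x = G₂.vert y) :
    Rel G₁ G₂ e₁ e₂ (k2 x) (k2 y) := by
  obtain ⟨i, hi⟩ := ((G₂.rot_vert x y).2 h).exists_nat_pow_eq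
  rw [← hi, ← rho_pow_k2 G₁ G₂]
  exact rel_rho_pow G₁ G₂ e₁ e₂ h1 _ i

include h1 h2 in
theorem rel_k12 [Finite E₁] [Finite E₂] (x : E₁ × Bool) (y : E₂ × Bool)
    (h : phi G₁ G₂ e₁ e₂ (G₂.vert y) = Sum.inl (G₁.vert x)) :
    Rel G₁ G₂ e₁ e₂ (k1 x) (k2 y) := by
  rcases phi_eq_inl G₁ G₂ e₁ e₂ h2 _ _ h with ⟨g1, g2⟩ | ⟨g1, g2⟩
  · have a1 := rel_k1 G₁ G₂ e₁ e₂ h1 x (e₁, false) g2
    have a2 := rel_k2 G₁ G₂ e₁ e₂ h1 y (e₂, false) g1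
    exact (a1.trans (relf G₁ G₂ e₁ e₂ h1).symm).trans a2.symm
  · have a1 := rel_k1 G₁ G₂ e₁ e₂ h1 x (e₁, true) g2
    have a2 := rel_k2 G₁ G₂ e₁ e₂ h1 y (e₂, true) g1
    exact (a1.trans (relt G₁ G₂ e₁ e₂ h1)).trans a2.symm

include h1 h2 in
theorem grot_vert [Finite E₁] [Finite E₂] (x y : (E₁ ⊕ E₂) × Bool) :
    (grot G₁ G₂ e₁ e₂).SameCycle x y ↔ gvert G₁ G₂ e₁ e₂ x = gvert G₁ G₂ e₁ e₂ y := by
  constructor
  · intro h
    obtain ⟨i, hi⟩ := h.exists_nat_pow_eq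
    rw [← hi]
    clear hi h
    induction i with
    | zero => rfl
    | succ i ih => rw [pow_succ', Equiv.Perm.mul_apply, gvert_grot G₁ G₂ e₁ e₂ h2, ← ih]
  · intro h
    rcases k_cases x with ⟨a, rfl⟩ | ⟨a, rfl⟩ <;> rcases k_cases y with ⟨b, rfl⟩ | ⟨b, rfl⟩
    · rw [gvert_k1, gvert_k1] at h
      exact rel_k1 G₁ G₂ e₁ e₂ h1 _ _ (Sum.inl_injective h)
    · rw [gvert_k1, gvert_k2] at h
      exact rel_k12 G₁ G₂ e₁ e₂ h1 h2 _ _ h.symm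
    · rw [gvert_k1, gvert_k2] at h
      exact (rel_k12 G₁ G₂ e₁ e₂ h1 h2 _ _ h).symm
    · rw [gvert_k2, gvert_k2] at h
      exact rel_k2 G₁ G₂ e₁ e₂ h1 _ _ (phi_inj G₁ G₂ e₁ e₂ h1 h2 h)

/-- number of crossing points -/
def glen : E₁ ⊕ E₂ → ℕ := Sum.elim G₁.len G₂.len

/-- crossing points of the first drawing -/
def i1 (x : Σ e, Fin (G₁.len e)) : Σ e, Fin (glen G₁ G₂ e) := ⟨Sum.inl x.1, x.2⟩

/-- crossing points of the second drawing -/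
def i2 (x : Σ e, Fin (G₂.len e)) : Σ e, Fin (glen G₁ G₂ e) := ⟨Sum.inr x.1, x.2⟩

theorem i_cases (x : Σ e, Fin (glen G₁ G₂ e)) : (∃ y, x = i1 G₁ G₂ y) ∨ ∃ y, x = i2 G₁ G₂ y := by
  rcases x with ⟨e | e, i⟩
  · exact Or.inl ⟨⟨e, i⟩, rfl⟩
  · exact Or.inr ⟨⟨e, i⟩, rfl⟩

theorem i1_inj : Function.Injective (i1 G₁ G₂) := by
  rintro ⟨a, b⟩ ⟨c, d⟩ h
  simp only [i1, Sigma.mk.injEq, Sum.inl.injEq] at h
  obtain ⟨rfl, h⟩ := h
  rw [eq_of_heq h]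

theorem i2_inj : Function.Injective (i2 G₁ G₂) := by
  rintro ⟨a, b⟩ ⟨c, d⟩ h
  simp only [i2, Sigma.mk.injEq, Sum.inr.injEq] at h
  obtain ⟨rfl, h⟩ := h
  rw [eq_of_heq h]

/-- partner of a crossing point -/
def gcr (x : Σ e, Fin (glen G₁ G₂ e)) : Σ e, Fin (glen G₁ G₂ e) :=
  match x with
  | ⟨Sum.inl e, i⟩ => i1 G₁ G₂ (G₁.cr ⟨e, i⟩)
  | ⟨Sum.inr e, i⟩ => i2 G₁ G₂ (G₂.cr ⟨e, i⟩)

theorem gcr_i1 (x : Σ e, Fin (G₁.len e)) : gcr G₁ G₂ (i1 G₁ G₂ x) = i1 G₁ G₂ (G₁.cr x) := rfl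

theorem gcr_i2 (x : Σ e, Fin (G₂.len e)) : gcr G₁ G₂ (i2 G₁ G₂ x) = i2 G₁ G₂ (G₂.cr x) := rfl

/-- sides of the crossing points -/
def gleft (x : Σ e, Fin (glen G₁ G₂ e)) : Bool :=
  match x with
  | ⟨Sum.inl e, i⟩ => G₁.toLeft ⟨e, i⟩
  | ⟨Sum.inr e, i⟩ => G₂.toLeft ⟨e, i⟩

theorem gleft_i1 (x : Σ e, Fin (G₁.len e)) : gleft G₁ G₂ (i1 G₁ G₂ x) = G₁.toLeft x := rfl

theorem gleft_i2 (x : Σ e, Fin (G₂.len e)) : gleft G₁ G₂ (i2 G₁ G₂ x) = G₂.toLeft x := rfl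

/-- the glued data -/
noncomputable def glue [Finite E₁] [Finite E₂] : Data (GV V₁ G₂ e₂) (E₁ ⊕ E₂) where
  vert := gvert G₁ G₂ e₁ e₂
  len := glen G₁ G₂
  cr := gcr G₁ G₂
  toLeft := gleft G₁ G₂
  rot := grot G₁ G₂ e₁ e₂
  cr_cr x := by
    rcases i_cases G₁ G₂ x with ⟨y, rfl⟩ | ⟨y, rfl⟩
    · rw [gcr_i1, gcr_i1, G₁.cr_cr]
    · rw [gcr_i2, gcr_i2, G₂.cr_cr]
  toLeft_cr x := by
    rcases i_cases G₁ G₂ x with ⟨y, rfl⟩ | ⟨y, rfl⟩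
    · rw [gcr_i1, gleft_i1, gleft_i1, G₁.toLeft_cr]
    · rw [gcr_i2, gleft_i2, gleft_i2, G₂.toLeft_cr]
  rot_vert := grot_vert G₁ G₂ e₁ e₂ h1 h2

end Pool.Agent.U423.FP
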