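import Pool.Agent.U423.FP.Glue

/-!
# Gluing two drawings along uncrossed edges: darts, walks and components
-/

set_option autoImplicit false

namespace Pool.Agent.U423.FP

open Pool.Agent.Q238.FP

variable {V₁ E₁ V₂ E₂ : Type} (G₁ : Data V₁ E₁) (G₂ : Data V₂ E₂) (e₁ : E₁) (e₂ : E₂)
  [Finite E₁] [Finite E₂] (h1 : G₁.vert (e₁, false) ≠ G₁.vert (e₁, true))
  (h2 : G₂.vert (e₂, false) ≠ G₂.vert (e₂, true))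

/-- a dart of the first drawing -/
def j1 (d : G₁.Dart) : (glue G₁ G₂ e₁ e₂ h1 h2).Dart := (⟨Sum.inl d.1.1, d.1.2⟩, d.2)

/-- a dart of the second drawing -/
def j2 (d : G₂.Dart) : (glue G₁ G₂ e₁ e₂ h1 h2).Dart := (⟨Sum.inr d.1.1, d.1.2⟩, d.2)

theorem j_cases (d : (glue G₁ G₂ e₁ e₂ h1 h2).Dart) :
    (∃ x, d = j1 G₁ G₂ e₁ e₂ h1 h2 x) ∨ ∃ x, d = j2 G₁ G₂ e₁ e₂ h1 h2 x := by
  rcases d with ⟨⟨e | e, i⟩, b⟩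
  · exact Or.inl ⟨(⟨e, i⟩, b), rfl⟩
  · exact Or.inr ⟨(⟨e, i⟩, b), rfl⟩

theorem j1_inj : Function.Injective (j1 G₁ G₂ e₁ e₂ h1 h2) := by
  rintro ⟨⟨a, i⟩, b⟩ ⟨⟨c, j⟩, d⟩ h
  simp only [j1, Prod.mk.injEq, Sigma.mk.injEq, Sum.inl.injEq] at h
  obtain ⟨⟨rfl, h⟩, rfl⟩ := h
  rw [eq_of_heq h]

theorem j2_inj : Function.Injective (j2 G₁ G₂ e₁ e₂ h1 h2) := by
  rintro ⟨⟨a, i⟩, b⟩ ⟨⟨c, j⟩, d⟩ h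
  simp only [j2, Prod.mk.injEq, Sigma.mk.injEq, Sum.inr.injEq] at h
  obtain ⟨⟨rfl, h⟩, rfl⟩ := h
  rw [eq_of_heq h]

theorem j12 (x : G₁.Dart) (y : G₂.Dart) :
    j1 G₁ G₂ e₁ e₂ h1 h2 x ≠ j2 G₁ G₂ e₁ e₂ h1 h2 y := by
  intro h
  have := congrArg (fun d => d.1.1) h
  simp [j1, j2] at this

theorem rev_j1 (d : G₁.Dart) : (glue G₁ G₂ e₁ e₂ h1 h2).rev (j1 G₁ G₂ e₁ e₂ h1 h2 d) =
    j1 G₁ G₂ e₁ e₂ h1 h2 (G₁.rev d) := rfl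

theorem rev_j2 (d : G₂.Dart) : (glue G₁ G₂ e₁ e₂ h1 h2).rev (j2 G₁ G₂ e₁ e₂ h1 h2 d) =
    j2 G₁ G₂ e₁ e₂ h1 h2 (G₂.rev d) := rfl

theorem out_k1 (x : E₁ × Bool) : (glue G₁ G₂ e₁ e₂ h1 h2).out (k1 x) =
    j1 G₁ G₂ e₁ e₂ h1 h2 (G₁.out x) := by
  rcases x with ⟨e, b⟩
  cases b <;> rfl

theorem out_k2 (x : E₂ × Bool) : (glue G₁ G₂ e₁ e₂ h1 h2).out (k2 x) =
    j2 G₁ G₂ e₁ e₂ h1 h2 (G₂.out x) := by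
  rcases x with ⟨e, b⟩
  cases b <;> rfl

theorem leave_i1 (x : Σ e, Fin (G₁.len e)) (b : Bool) :
    (glue G₁ G₂ e₁ e₂ h1 h2).leave (i1 G₁ G₂ x) b = j1 G₁ G₂ e₁ e₂ h1 h2 (G₁.leave x b) := by
  cases b <;> rfl

theorem leave_i2 (x : Σ e, Fin (G₂.len e)) (b : Bool) :
    (glue G₁ G₂ e₁ e₂ h1 h2).leave (i2 G₁ G₂ x) b = j2 G₁ G₂ e₁ e₂ h1 h2 (G₂.leave x b) := by
  cases b <;> rfl

theorem arr_i1 (x : Σ e, Fin (G₁.len e)) (b : Bool) :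
    (glue G₁ G₂ e₁ e₂ h1 h2).arr (i1 G₁ G₂ x) b = j1 G₁ G₂ e₁ e₂ h1 h2 (G₁.arr x b) := by
  cases b <;> rfl

theorem arr_i2 (x : Σ e, Fin (G₂.len e)) (b : Bool) :
    (glue G₁ G₂ e₁ e₂ h1 h2).arr (i2 G₁ G₂ x) b = j2 G₁ G₂ e₁ e₂ h1 h2 (G₂.arr x b) := by
  cases b <;> rfl

/-- the successors in the two drawings side by side -/
def nn (d : (glue G₁ G₂ e₁ e₂ h1 h2).Dart) : (glue G₁ G₂ e₁ e₂ h1 h2).Dart :=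
  match d with
  | (⟨Sum.inl e, i⟩, b) => j1 G₁ G₂ e₁ e₂ h1 h2 (G₁.next (⟨e, i⟩, b))
  | (⟨Sum.inr e, i⟩, b) => j2 G₁ G₂ e₁ e₂ h1 h2 (G₂.next (⟨e, i⟩, b))

theorem nn_j1 (d : G₁.Dart) : nn G₁ G₂ e₁ e₂ h1 h2 (j1 G₁ G₂ e₁ e₂ h1 h2 d) =
    j1 G₁ G₂ e₁ e₂ h1 h2 (G₁.next d) := rfl

theorem nn_j2 (d : G₂.Dart) : nn G₁ G₂ e₁ e₂ h1 h2 (j2 G₁ G₂ e₁ e₂ h1 h2 d) =
    j2 G₁ G₂ e₁ e₂ h1 h2 (G₂.next d) := rfl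

/-- the special darts -/
abbrev dm1 : (glue G₁ G₂ e₁ e₂ h1 h2).Dart := j1 G₁ G₂ e₁ e₂ h1 h2 (G₁.out (e₁, true))

/-- the special darts -/
abbrev dm2 : (glue G₁ G₂ e₁ e₂ h1 h2).Dart := j2 G₁ G₂ e₁ e₂ h1 h2 (G₂.out (e₂, true))

open Classical in
/-- exchange of the two special darts -/
noncomputable def tau (d : (glue G₁ G₂ e₁ e₂ h1 h2).Dart) : (glue G₁ G₂ e₁ e₂ h1 h2).Dart :=
  Equiv.swap (dm1 G₁ G₂ e₁ e₂ h1 h2) (dm2 G₁ G₂ e₁ e₂ h1 h2) d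

theorem tau_left : tau G₁ G₂ e₁ e₂ h1 h2 (dm1 G₁ G₂ e₁ e₂ h1 h2) = dm2 G₁ G₂ e₁ e₂ h1 h2 := by
  classical
  unfold tau
  exact Equiv.swap_apply_left _ _

theorem tau_right : tau G₁ G₂ e₁ e₂ h1 h2 (dm2 G₁ G₂ e₁ e₂ h1 h2) = dm1 G₁ G₂ e₁ e₂ h1 h2 := by
  classical
  unfold tau
  exact Equiv.swap_apply_right _ _

theorem tau_other (d : (glue G₁ G₂ e₁ e₂ h1 h2).Dart) (g1 : d ≠ dm1 G₁ G₂ e₁ e₂ h1 h2)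
    (g2 : d ≠ dm2 G₁ G₂ e₁ e₂ h1 h2) : tau G₁ G₂ e₁ e₂ h1 h2 d = d := by
  classical
  unfold tau
  exact Equiv.swap_apply_of_ne_of_ne g1 g2

theorem tau_tau (d : (glue G₁ G₂ e₁ e₂ h1 h2).Dart) :
    tau G₁ G₂ e₁ e₂ h1 h2 (tau G₁ G₂ e₁ e₂ h1 h2 d) = d := by
  classical
  unfold tau
  exact Equiv.swap_apply_self _ _ _

theorem out_sw (w : (E₁ ⊕ E₂) × Bool) : (glue G₁ G₂ e₁ e₂ h1 h2).out (sw e₁ e₂ true w) =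
    tau G₁ G₂ e₁ e₂ h1 h2 ((glue G₁ G₂ e₁ e₂ h1 h2).out w) := by
  by_cases g1 : w = k1 (e₁, true)
  · rw [g1, sw_left, out_k1, out_k2]
    exact (tau_left G₁ G₂ e₁ e₂ h1 h2).symm
  · by_cases g2 : w = k2 (e₂, true)
    · rw [g2, sw_right, out_k1, out_k2]
      exact (tau_right G₁ G₂ e₁ e₂ h1 h2).symm
    · rw [sw_other e₁ e₂ true w g1 g2, tau_other]
      · intro h
        apply g1
        apply (glue G₁ G₂ e₁ e₂ h1 h2).out_inj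
        rw [h, out_k1]
      · intro h
        apply g2
        apply (glue G₁ G₂ e₁ e₂ h1 h2).out_inj
        rw [h, out_k2]

variable (u1 : G₁.len e₁ = 0) (u2 : G₂.len e₂ = 0)

omit [Finite E₁] in
include u1 in
theorem rev_out1 : G₁.rev (G₁.out (e₁, false)) = G₁.out (e₁, true) := by
  unfold Data.rev Data.out
  simp only [Bool.not_false, Bool.not_true, if_true, Bool.false_eq_true, if_false,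
    Prod.mk.injEq, and_true, Sigma.mk.injEq, heq_eq_eq, true_and]
  apply Fin.ext
  simp [u1]

include u1 u2 in
theorem rev_out_sw (w : (E₁ ⊕ E₂) × Bool) :
    (glue G₁ G₂ e₁ e₂ h1 h2).rev ((glue G₁ G₂ e₁ e₂ h1 h2).out (sw e₁ e₂ false w)) =
    tau G₁ G₂ e₁ e₂ h1 h2 ((glue G₁ G₂ e₁ e₂ h1 h2).rev ((glue G₁ G₂ e₁ e₂ h1 h2).out w)) := by
  have r1 : (glue G₁ G₂ e₁ e₂ h1 h2).rev ((glue G₁ G₂ e₁ e₂ h1 h2).out (k1 (e₁, false))) =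
      dm1 G₁ G₂ e₁ e₂ h1 h2 := by
    rw [out_k1, rev_j1, rev_out1 G₁ e₁ u1]
  have r2 : (glue G₁ G₂ e₁ e₂ h1 h2).rev ((glue G₁ G₂ e₁ e₂ h1 h2).out (k2 (e₂, false))) =
      dm2 G₁ G₂ e₁ e₂ h1 h2 := by
    rw [out_k2, rev_j2, rev_out1 G₂ e₂ u2]
  by_cases g1 : w = k1 (e₁, false)
  · rw [g1, sw_left, r1, r2, tau_left]
  · by_cases g2 : w = k2 (e₂, false)
    · rw [g2, sw_right, r1, r2, tau_right]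
    · rw [sw_other e₁ e₂ false w g1 g2, tau_other]
      · intro h
        apply g1
        apply (glue G₁ G₂ e₁ e₂ h1 h2).out_inj
        apply (glue G₁ G₂ e₁ e₂ h1 h2).rev_inj
        rw [h, r1]
      · intro h
        apply g2
        apply (glue G₁ G₂ e₁ e₂ h1 h2).out_inj
        apply (glue G₁ G₂ e₁ e₂ h1 h2).rev_inj
        rw [h, r2]

theorem nn_rev_out (w : (E₁ ⊕ E₂) × Bool) : nn G₁ G₂ e₁ e₂ h1 h2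
    ((glue G₁ G₂ e₁ e₂ h1 h2).rev ((glue G₁ G₂ e₁ e₂ h1 h2).out w)) =
    (glue G₁ G₂ e₁ e₂ h1 h2).out (rho G₁ G₂ w) := by
  rcases k_cases w with ⟨x, rfl⟩ | ⟨x, rfl⟩
  · rw [out_k1, rev_j1, nn_j1, rho_k1, out_k1, G₁.next_rev_out]
  · rw [out_k2, rev_j2, nn_j2, rho_k2, out_k2, G₂.next_rev_out]

include u1 u2 in
theorem ne_dm (d : (glue G₁ G₂ e₁ e₂ h1 h2).Dart) (h : 0 < glen G₁ G₂ d.1.1) :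
    d ≠ dm1 G₁ G₂ e₁ e₂ h1 h2 ∧ d ≠ dm2 G₁ G₂ e₁ e₂ h1 h2 := by
  constructor
  · rintro rfl
    have : glen G₁ G₂ (Sum.inl e₁) = 0 := u1
    change 0 < glen G₁ G₂ (Sum.inl e₁) at h
    omega
  · rintro rfl
    have : glen G₁ G₂ (Sum.inr e₂) = 0 := u2
    change 0 < glen G₁ G₂ (Sum.inr e₂) at h
    omega

include u1 u2 in
theorem next_eq (d : (glue G₁ G₂ e₁ e₂ h1 h2).Dart) : (glue G₁ G₂ e₁ e₂ h1 h2).next d =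
    tau G₁ G₂ e₁ e₂ h1 h2 (nn G₁ G₂ e₁ e₂ h1 h2 (tau G₁ G₂ e₁ e₂ h1 h2 d)) := by
  rcases (glue G₁ G₂ e₁ e₂ h1 h2).cases_dart d with ⟨-, x, hx⟩ | ⟨-, hx⟩
  · set b := d.2 with hb
    clear_value b
    subst hx
    have key : ∀ y : Σ e, Fin (glen G₁ G₂ e), ∀ c, ((glue G₁ G₂ e₁ e₂ h1 h2).leave y c ≠
        dm1 G₁ G₂ e₁ e₂ h1 h2 ∧ (glue G₁ G₂ e₁ e₂ h1 h2).leave y c ≠ dm2 G₁ G₂ e₁ e₂ h1 h2) ∧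
        (glue G₁ G₂ e₁ e₂ h1 h2).arr y c ≠
        dm1 G₁ G₂ e₁ e₂ h1 h2 ∧ (glue G₁ G₂ e₁ e₂ h1 h2).arr y c ≠ dm2 G₁ G₂ e₁ e₂ h1 h2 := by
      intro y c
      have hy : 0 < glen G₁ G₂ y.1 := lt_of_le_of_lt (Nat.zero_le _) y.2.2
      exact ⟨ne_dm G₁ G₂ e₁ e₂ h1 h2 u1 u2 _ hy, ne_dm G₁ G₂ e₁ e₂ h1 h2 u1 u2 _ hy⟩
    rw [tau_other _ _ _ _ _ _ _ (key x b).2.1 (key x b).2.2]
    have hn : nn G₁ G₂ e₁ e₂ h1 h2 ((glue G₁ G₂ e₁ e₂ h1 h2).arr x b) =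
        (glue G₁ G₂ e₁ e₂ h1 h2).leave ((glue G₁ G₂ e₁ e₂ h1 h2).cr x)
          (b == (glue G₁ G₂ e₁ e₂ h1 h2).toLeft x) := by
      rcases i_cases G₁ G₂ x with ⟨y, rfl⟩ | ⟨y, rfl⟩
      · rw [arr_i1, nn_j1, G₁.next_arr, ← leave_i1]
        rfl
      · rw [arr_i2, nn_j2, G₂.next_arr, ← leave_i2]
        rfl
    rw [hn, (glue G₁ G₂ e₁ e₂ h1 h2).next_arr, tau_other]
    · exact (key _ _).1.1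
    · exact (key _ _).1.2
  · rw [hx, (glue G₁ G₂ e₁ e₂ h1 h2).next_rev_out, ← rev_out_sw G₁ G₂ e₁ e₂ h1 h2 u1 u2,
      nn_rev_out, ← out_sw]
    rfl

/-! ### walks -/

/-- the walk in one of the two drawings -/
def fw (d : (glue G₁ G₂ e₁ e₂ h1 h2).Dart) : G₁.Walk ⊕ G₂.Walk :=
  match d with
  | (⟨Sum.inl e, i⟩, b) => Sum.inl (Quot.mk _ (⟨e, i⟩, b))
  | (⟨Sum.inr e, i⟩, b) => Sum.inr (Quot.mk _ (⟨e, i⟩, b))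

theorem fw_j1 (d : G₁.Dart) : fw G₁ G₂ e₁ e₂ h1 h2 (j1 G₁ G₂ e₁ e₂ h1 h2 d) =
    Sum.inl (Quot.mk _ d) := rfl

theorem fw_j2 (d : G₂.Dart) : fw G₁ G₂ e₁ e₂ h1 h2 (j2 G₁ G₂ e₁ e₂ h1 h2 d) =
    Sum.inr (Quot.mk _ d) := rfl

theorem fw_nn (d : (glue G₁ G₂ e₁ e₂ h1 h2).Dart) :
    fw G₁ G₂ e₁ e₂ h1 h2 (nn G₁ G₂ e₁ e₂ h1 h2 d) = fw G₁ G₂ e₁ e₂ h1 h2 d := by
  rcases j_cases G₁ G₂ e₁ e₂ h1 h2 d with ⟨x, rfl⟩ | ⟨x, rfl⟩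
  · rw [nn_j1, fw_j1, fw_j1]
    exact congrArg Sum.inl (Quot.sound (r := fun d d' : G₁.Dart => G₁.next d = d') rfl).symm
  · rw [nn_j2, fw_j2, fw_j2]
    exact congrArg Sum.inr (Quot.sound (r := fun d d' : G₂.Dart => G₂.next d = d') rfl).symm

include u1 u2 in
theorem card_walk [Finite G₁.Dart] [Finite G₂.Dart] : Nat.card (glue G₁ G₂ e₁ e₂ h1 h2).Walk =
    Nat.card G₁.Walk + Nat.card G₂.Walk := by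
  rw [← Nat.card_sum]
  refine Nat.card_congr
    { toFun := Quot.lift (fun d => fw G₁ G₂ e₁ e₂ h1 h2 (tau G₁ G₂ e₁ e₂ h1 h2 d)) ?_
      invFun := Sum.elim
        (Quot.lift (fun d => Quot.mk _ (tau G₁ G₂ e₁ e₂ h1 h2 (j1 G₁ G₂ e₁ e₂ h1 h2 d))) ?_)
        (Quot.lift (fun d => Quot.mk _ (tau G₁ G₂ e₁ e₂ h1 h2 (j2 G₁ G₂ e₁ e₂ h1 h2 d))) ?_)
      left_inv := ?_
      right_inv := ?_ }
  · rintro a b rfl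
    rw [next_eq G₁ G₂ e₁ e₂ h1 h2 u1 u2, tau_tau, fw_nn]
  · rintro a b rfl
    apply Quot.sound
    rw [next_eq G₁ G₂ e₁ e₂ h1 h2 u1 u2, tau_tau, nn_j1]
  · rintro a b rfl
    apply Quot.sound
    rw [next_eq G₁ G₂ e₁ e₂ h1 h2 u1 u2, tau_tau, nn_j2]
  · rintro ⟨d⟩
    show Sum.elim _ _ (fw G₁ G₂ e₁ e₂ h1 h2 (tau G₁ G₂ e₁ e₂ h1 h2 d)) = _
    rcases j_cases G₁ G₂ e₁ e₂ h1 h2 (tau G₁ G₂ e₁ e₂ h1 h2 d) with ⟨x, hx⟩ | ⟨x, hx⟩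
    · rw [hx, fw_j1]
      show Quot.mk _ (tau G₁ G₂ e₁ e₂ h1 h2 (j1 G₁ G₂ e₁ e₂ h1 h2 x)) = _
      rw [← hx, tau_tau]
    · rw [hx, fw_j2]
      show Quot.mk _ (tau G₁ G₂ e₁ e₂ h1 h2 (j2 G₁ G₂ e₁ e₂ h1 h2 x)) = _
      rw [← hx, tau_tau]
  · rintro (w | w) <;> induction w using Quot.ind with | mk d => ?_
    · show fw G₁ G₂ e₁ e₂ h1 h2 (tau G₁ G₂ e₁ e₂ h1 h2
        (tau G₁ G₂ e₁ e₂ h1 h2 (j1 G₁ G₂ e₁ e₂ h1 h2 d))) = _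
      rw [tau_tau]
      rfl
    · show fw G₁ G₂ e₁ e₂ h1 h2 (tau G₁ G₂ e₁ e₂ h1 h2
        (tau G₁ G₂ e₁ e₂ h1 h2 (j2 G₁ G₂ e₁ e₂ h1 h2 d))) = _
      rw [tau_tau]
      rfl

/-! ### components -/

/-- the component of a dart -/
abbrev mkC (d : (glue G₁ G₂ e₁ e₂ h1 h2).Dart) : (glue G₁ G₂ e₁ e₂ h1 h2).Comp := Quot.mk _ d

theorem mkC_next (d : (glue G₁ G₂ e₁ e₂ h1 h2).Dart) :
    mkC G₁ G₂ e₁ e₂ h1 h2 ((glue G₁ G₂ e₁ e₂ h1 h2).next d) = mkC G₁ G₂ e₁ e₂ h1 h2 d :=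
  (Quot.sound (r := fun d d' => (glue G₁ G₂ e₁ e₂ h1 h2).next d = d' ∨
    (glue G₁ G₂ e₁ e₂ h1 h2).rev d = d') (Or.inl rfl)).symm

theorem mkC_rev (d : (glue G₁ G₂ e₁ e₂ h1 h2).Dart) :
    mkC G₁ G₂ e₁ e₂ h1 h2 ((glue G₁ G₂ e₁ e₂ h1 h2).rev d) = mkC G₁ G₂ e₁ e₂ h1 h2 d :=
  (Quot.sound (r := fun d d' => (glue G₁ G₂ e₁ e₂ h1 h2).next d = d' ∨
    (glue G₁ G₂ e₁ e₂ h1 h2).rev d = d') (Or.inr rfl)).symm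

theorem mkC_dm : mkC G₁ G₂ e₁ e₂ h1 h2 (dm1 G₁ G₂ e₁ e₂ h1 h2) =
    mkC G₁ G₂ e₁ e₂ h1 h2 (dm2 G₁ G₂ e₁ e₂ h1 h2) := by
  obtain ⟨i, hi⟩ := (relt G₁ G₂ e₁ e₂ h1).exists_nat_pow_eq
  have key : ∀ i : ℕ, mkC G₁ G₂ e₁ e₂ h1 h2 ((glue G₁ G₂ e₁ e₂ h1 h2).out
      ((grot G₁ G₂ e₁ e₂ ^ i) (k1 (e₁, true)))) =
      mkC G₁ G₂ e₁ e₂ h1 h2 ((glue G₁ G₂ e₁ e₂ h1 h2).out (k1 (e₁, true))) := by
    intro i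
    induction i with
    | zero => rfl
    | succ i ih =>
      rw [pow_succ', Equiv.Perm.mul_apply, ← ih]
      have := (glue G₁ G₂ e₁ e₂ h1 h2).next_rev_out ((grot G₁ G₂ e₁ e₂ ^ i) (k1 (e₁, true)))
      change _ = (glue G₁ G₂ e₁ e₂ h1 h2).out (grot G₁ G₂ e₁ e₂ _) at this
      rw [← this, mkC_next, mkC_rev]
  have := key i
  rw [hi, out_k1, out_k2] at this
  exact this.symm

theorem mkC_tau (d : (glue G₁ G₂ e₁ e₂ h1 h2).Dart) :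
    mkC G₁ G₂ e₁ e₂ h1 h2 (tau G₁ G₂ e₁ e₂ h1 h2 d) = mkC G₁ G₂ e₁ e₂ h1 h2 d := by
  by_cases g1 : d = dm1 G₁ G₂ e₁ e₂ h1 h2
  · rw [g1, tau_left, mkC_dm]
  · by_cases g2 : d = dm2 G₁ G₂ e₁ e₂ h1 h2
    · rw [g2, tau_right, mkC_dm]
    · rw [tau_other _ _ _ _ _ _ _ g1 g2]

include u1 u2 in
theorem mkC_nn (d : (glue G₁ G₂ e₁ e₂ h1 h2).Dart) :
    mkC G₁ G₂ e₁ e₂ h1 h2 (nn G₁ G₂ e₁ e₂ h1 h2 d) = mkC G₁ G₂ e₁ e₂ h1 h2 d := by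
  have h := next_eq G₁ G₂ e₁ e₂ h1 h2 u1 u2 (tau G₁ G₂ e₁ e₂ h1 h2 d)
  rw [tau_tau] at h
  rw [← mkC_tau, ← h, mkC_next, mkC_tau]

include u1 u2 in
theorem card_comp (c1 : Nat.card G₁.Comp = 1) (c2 : Nat.card G₂.Comp = 1) :
    Nat.card (glue G₁ G₂ e₁ e₂ h1 h2).Comp = 1 := by
  rw [Nat.card_eq_one_iff_unique] at c1 c2 ⊢
  obtain ⟨c1, -⟩ := c1
  obtain ⟨c2, -⟩ := c2
  refine ⟨⟨?_⟩, ⟨mkC G₁ G₂ e₁ e₂ h1 h2 (dm1 G₁ G₂ e₁ e₂ h1 h2)⟩⟩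
  have a1 : ∀ d, mkC G₁ G₂ e₁ e₂ h1 h2 (j1 G₁ G₂ e₁ e₂ h1 h2 d) =
      mkC G₁ G₂ e₁ e₂ h1 h2 (dm1 G₁ G₂ e₁ e₂ h1 h2) := by
    intro d
    have e := c1.elim (Quot.mk _ d) (Quot.mk _ (G₁.out (e₁, true)))
    exact congrArg (Quot.lift (fun d => mkC G₁ G₂ e₁ e₂ h1 h2 (j1 G₁ G₂ e₁ e₂ h1 h2 d))
      (fun a b hab => by
        rcases hab with rfl | rfl
        · show mkC G₁ G₂ e₁ e₂ h1 h2 _ = mkC G₁ G₂ e₁ e₂ h1 h2 _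
          rw [← nn_j1, mkC_nn G₁ G₂ e₁ e₂ h1 h2 u1 u2]
        · show mkC G₁ G₂ e₁ e₂ h1 h2 _ = mkC G₁ G₂ e₁ e₂ h1 h2 _
          rw [← rev_j1, mkC_rev])) e
  have a2 : ∀ d, mkC G₁ G₂ e₁ e₂ h1 h2 (j2 G₁ G₂ e₁ e₂ h1 h2 d) =
      mkC G₁ G₂ e₁ e₂ h1 h2 (dm1 G₁ G₂ e₁ e₂ h1 h2) := by
    intro d
    rw [mkC_dm]
    have e := c2.elim (Quot.mk _ d) (Quot.mk _ (G₂.out (e₂, true)))
    exact congrArg (Quot.lift (fun d => mkC G₁ G₂ e₁ e₂ h1 h2 (j2 G₁ G₂ e₁ e₂ h1 h2 d))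
      (fun a b hab => by
        rcases hab with rfl | rfl
        · show mkC G₁ G₂ e₁ e₂ h1 h2 _ = mkC G₁ G₂ e₁ e₂ h1 h2 _
          rw [← nn_j2, mkC_nn G₁ G₂ e₁ e₂ h1 h2 u1 u2]
        · show mkC G₁ G₂ e₁ e₂ h1 h2 _ = mkC G₁ G₂ e₁ e₂ h1 h2 _
          rw [← rev_j2, mkC_rev])) e
  have a : ∀ d, mkC G₁ G₂ e₁ e₂ h1 h2 d = mkC G₁ G₂ e₁ e₂ h1 h2 (dm1 G₁ G₂ e₁ e₂ h1 h2) := by
    intro d
    rcases j_cases G₁ G₂ e₁ e₂ h1 h2 d with ⟨x, rfl⟩ | ⟨x, rfl⟩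
    · exact a1 x
    · exact a2 x
  rintro ⟨x⟩ ⟨y⟩
  exact (a x).trans (a y).symm

/-- no isolated vertices -/
theorem iso_empty (c1 : IsEmpty G₁.Iso) (c2 : IsEmpty G₂.Iso) :
    IsEmpty (glue G₁ G₂ e₁ e₂ h1 h2).Iso := by
  refine ⟨?_⟩
  rintro ⟨v | v, hv⟩
  · refine c1.elim ⟨v, fun x hx => hv (k1 x) ?_⟩
    show gvert G₁ G₂ e₁ e₂ (k1 x) = _
    rw [gvert_k1, hx]
  · refine c2.elim ⟨v.1, fun x hx => hv (k2 x) ?_⟩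
    show gvert G₁ G₂ e₁ e₂ (k2 x) = _
    rw [gvert_k2, hx, phi_other G₁ G₂ e₁ e₂ v.1 v.2.1 v.2.2]

end Pool.Agent.U423.FP
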