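import Pool.Agent.U423.FP.GlueD

/-!
# Gluing two drawings along uncrossed edges: the glued drawing
-/

set_option autoImplicit false

namespace Pool.Agent.U423.FP

open Pool.Agent.Q238.FP

section around

variable {V E F : Type} (G : Drawing V E F)

/-- going around the first end of an uncrossed edge -/
theorem around [Finite E] (e : E) (hl : G.vert (e, false) ≠ G.vert (e, true)) (S : G.Dart → Prop)
    (hn : ∀ d, S (G.next d) ↔ S d) (hr : ∀ d, d.1.1 ≠ e → (S d ↔ S (G.rev d))) :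
    S (G.out (e, false)) ↔ S (G.rev (G.out (e, false))) := by
  have h0 : S (G.rev (G.out (e, false))) ↔ S (G.out (G.rot (e, false))) := by
    rw [← G.next_rev_out, hn]
  rw [h0]
  have key : ∀ i : ℕ, (S (G.out ((G.rot ^ (i + 1)) (e, false))) ↔
      S (G.out (G.rot (e, false)))) ∧
      G.vert ((G.rot ^ (i + 1)) (e, false)) = G.vert (e, false) := by
    intro i
    induction i with
    | zero => simpa using G.vert_rot _
    | succ i ih =>
      rw [pow_succ', Equiv.Perm.mul_apply]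
      refine ⟨?_, by rw [G.vert_rot, ih.2]⟩
      by_cases hz : (G.rot ^ (i + 1)) (e, false) = (e, false)
      · rw [hz]
      · rw [← G.next_rev_out, hn, ← ih.1]
        refine (hr _ ?_).symm
        intro he
        apply hz
        set z := (G.rot ^ (i + 1)) (e, false) with hzdef
        have h2 := ih.2
        clear_value z
        rcases z with ⟨z, b⟩
        change z = e at he
        subst he
        cases b
        · rfl
        · exact absurd h2.symm hl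
  have hN : 0 < orderOf G.rot := orderOf_pos _
  obtain ⟨m, hm⟩ : ∃ m, orderOf G.rot = m + 1 := ⟨orderOf G.rot - 1, by omega⟩
  have := (key m).1
  rw [← hm, pow_orderOf_eq_one] at this
  exact this

theorem dart_unc (e : E) (u : G.len e = 0) (d : G.Dart) (hd : d.1.1 = e) :
    d = G.out (e, false) ∨ d = G.out (e, true) := by
  rcases d with ⟨⟨a, i⟩, b⟩
  change a = e at hd
  subst hd
  have hi := i.2
  cases b
  · right
    simp only [Data.out, Bool.not_true, if_true, Prod.mk.injEq, and_true, Sigma.mk.injEq,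
      heq_eq_eq, true_and]
    apply Fin.ext
    rw [Fin.val_last]
    omega
  · left
    simp only [Data.out, Bool.not_false, Bool.false_eq_true, if_false, Prod.mk.injEq, and_true,
      Sigma.mk.injEq, heq_eq_eq, true_and]
    apply Fin.ext
    rw [Fin.val_zero]
    omega

end around

variable {V₁ E₁ F₁ V₂ E₂ F₂ : Type} (G₁ : Drawing V₁ E₁ F₁) (G₂ : Drawing V₂ E₂ F₂)
  (e₁ : E₁) (e₂ : E₂) [Finite E₁] [Finite E₂]
  (h1 : G₁.vert (e₁, false) ≠ G₁.vert (e₁, true))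
  (h2 : G₂.vert (e₂, false) ≠ G₂.vert (e₂, true))
  (u1 : G₁.len e₁ = 0) (u2 : G₂.len e₂ = 0)

/-- faces side by side -/
def ff (d : (glue G₁.toData G₂.toData e₁ e₂ h1 h2).Dart) : F₁ ⊕ F₂ :=
  match d with
  | (⟨Sum.inl e, i⟩, b) => Sum.inl (G₁.face (⟨e, i⟩, b))
  | (⟨Sum.inr e, i⟩, b) => Sum.inr (G₂.face (⟨e, i⟩, b))

theorem ff_j1 (d : G₁.Dart) : ff G₁ G₂ e₁ e₂ h1 h2 (j1 _ _ e₁ e₂ h1 h2 d) =
    Sum.inl (G₁.face d) := rfl

theorem ff_j2 (d : G₂.Dart) : ff G₁ G₂ e₁ e₂ h1 h2 (j2 _ _ e₁ e₂ h1 h2 d) =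
    Sum.inr (G₂.face d) := rfl

theorem ff_nn (d : (glue G₁.toData G₂.toData e₁ e₂ h1 h2).Dart) :
    ff G₁ G₂ e₁ e₂ h1 h2 (nn _ _ e₁ e₂ h1 h2 d) = ff G₁ G₂ e₁ e₂ h1 h2 d := by
  rcases j_cases _ _ e₁ e₂ h1 h2 d with ⟨x, rfl⟩ | ⟨x, rfl⟩
  · rw [nn_j1, ff_j1, ff_j1, G₁.face_next]
  · rw [nn_j2, ff_j2, ff_j2, G₂.face_next]

/-- the face of a dart of the glued drawing -/
noncomputable def gface (d : (glue G₁.toData G₂.toData e₁ e₂ h1 h2).Dart) : F₁ ⊕ F₂ :=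
  ff G₁ G₂ e₁ e₂ h1 h2 (tau _ _ e₁ e₂ h1 h2 d)

/-- the face of a vertex -/
def gloc (v : GV V₁ G₂.toData e₂) : F₁ ⊕ F₂ :=
  match v with
  | Sum.inl v => Sum.inl (G₁.loc v)
  | Sum.inr v => Sum.inr (G₂.loc v.1)

theorem gface_j1 (d : G₁.Dart) (h : d ≠ G₁.out (e₁, true)) :
    gface G₁ G₂ e₁ e₂ h1 h2 (j1 _ _ e₁ e₂ h1 h2 d) = Sum.inl (G₁.face d) := by
  unfold gface
  rw [tau_other, ff_j1]
  · exact fun h' => h (j1_inj _ _ _ _ _ _ h')
  · exact j12 _ _ _ _ _ _ _ _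

theorem gface_j2 (d : G₂.Dart) (h : d ≠ G₂.out (e₂, true)) :
    gface G₁ G₂ e₁ e₂ h1 h2 (j2 _ _ e₁ e₂ h1 h2 d) = Sum.inr (G₂.face d) := by
  unfold gface
  rw [tau_other, ff_j2]
  · exact (j12 _ _ _ _ _ _ _ _).symm
  · exact fun h' => h (j2_inj _ _ _ _ _ _ h')

theorem gface_dm1 : gface G₁ G₂ e₁ e₂ h1 h2 (j1 _ _ e₁ e₂ h1 h2 (G₁.out (e₁, true))) =
    Sum.inr (G₂.face (G₂.out (e₂, true))) := by
  unfold gface
  have := tau_left G₁.toData G₂.toData e₁ e₂ h1 h2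
  unfold dm1 dm2 at this
  rw [this, ff_j2]

theorem gface_dm2 : gface G₁ G₂ e₁ e₂ h1 h2 (j2 _ _ e₁ e₂ h1 h2 (G₂.out (e₂, true))) =
    Sum.inl (G₁.face (G₁.out (e₁, true))) := by
  unfold gface
  have := tau_right G₁.toData G₂.toData e₁ e₂ h1 h2
  unfold dm1 dm2 at this
  rw [this, ff_j1]

theorem out_ne1 {V E : Type} (G : Data V E) (e : E) : G.out (e, false) ≠ G.out (e, true) := by
  intro h
  have := G.out_inj h
  simp at this

/-- the boolean status of the faces of the glued drawing -/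
def AA (A₁ : Set F₁) (A₂ : Set F₂) : Set (F₁ ⊕ F₂) := {f | Sum.elim (· ∈ A₁) (· ∈ A₂) f}

theorem mem_AA_inl (A₁ : Set F₁) (A₂ : Set F₂) (f : F₁) : Sum.inl f ∈ AA A₁ A₂ ↔ f ∈ A₁ := Iff.rfl

theorem mem_AA_inr (A₁ : Set F₁) (A₂ : Set F₂) (f : F₂) : Sum.inr f ∈ AA A₁ A₂ ↔ f ∈ A₂ := Iff.rfl

include u1 u2 in
/-- the status of the two sides of a dart of the glued drawing -/
theorem sides (P : E₁ ⊕ E₂ → Prop) (A : Set (F₁ ⊕ F₂))
    (H1 : ∀ d : G₁.Dart, d.1.1 ≠ e₁ →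
      ((Sum.inl (G₁.face d) ∈ A ↔ Sum.inl (G₁.face (G₁.rev d)) ∈ A) ↔ P (Sum.inl d.1.1)))
    (H2 : ∀ d : G₂.Dart, d.1.1 ≠ e₂ →
      ((Sum.inr (G₂.face d) ∈ A ↔ Sum.inr (G₂.face (G₂.rev d)) ∈ A) ↔ P (Sum.inr d.1.1)))
    (H3 : (Sum.inl (G₁.face (G₁.out (e₁, false))) ∈ A ↔
      Sum.inr (G₂.face (G₂.out (e₂, true))) ∈ A) ↔ P (Sum.inl e₁))
    (H4 : (Sum.inr (G₂.face (G₂.out (e₂, false))) ∈ A ↔
      Sum.inl (G₁.face (G₁.out (e₁, true))) ∈ A) ↔ P (Sum.inr e₂))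
    (d : (glue G₁.toData G₂.toData e₁ e₂ h1 h2).Dart) :
    (gface G₁ G₂ e₁ e₂ h1 h2 d ∈ A ↔
      gface G₁ G₂ e₁ e₂ h1 h2 ((glue G₁.toData G₂.toData e₁ e₂ h1 h2).rev d) ∈ A) ↔ P d.1.1 := by
  have r1 := rev_out1 G₁.toData e₁ u1
  have r2 := rev_out1 G₂.toData e₂ u2
  rcases j_cases _ _ e₁ e₂ h1 h2 d with ⟨x, rfl⟩ | ⟨x, rfl⟩
  · rw [rev_j1]
    change _ ↔ P (Sum.inl x.1.1)
    by_cases hx : x.1.1 = e₁
    · rcases dart_unc G₁ e₁ u1 x hx with rfl | rfl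
      · rw [r1, gface_dm1, gface_j1 _ _ _ _ _ _ _ (out_ne1 _ _), hx]
        exact H3
      · rw [hx, ← H3, ← r1, G₁.rev_rev, r1, gface_dm1, gface_j1 _ _ _ _ _ _ _ (out_ne1 _ _)]
        exact ⟨Iff.symm, Iff.symm⟩
    · rw [gface_j1 _ _ _ _ _ _ _ (fun h => hx (by rw [h]; rfl)),
        gface_j1 _ _ _ _ _ _ _ (fun h => hx (by
          have := congrArg (fun d : G₁.Dart => d.1.1) h
          exact this))]
      exact H1 x hx
  · rw [rev_j2]
    change _ ↔ P (Sum.inr x.1.1)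
    by_cases hx : x.1.1 = e₂
    · rcases dart_unc G₂ e₂ u2 x hx with rfl | rfl
      · rw [r2, gface_dm2, gface_j2 _ _ _ _ _ _ _ (out_ne1 _ _), hx]
        exact H4
      · rw [hx, ← H4, ← r2, G₂.rev_rev, r2, gface_dm2, gface_j2 _ _ _ _ _ _ _ (out_ne1 _ _)]
        exact ⟨Iff.symm, Iff.symm⟩
    · rw [gface_j2 _ _ _ _ _ _ _ (fun h => hx (by rw [h]; rfl)),
        gface_j2 _ _ _ _ _ _ _ (fun h => hx (by
          have := congrArg (fun d : G₂.Dart => d.1.1) h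
          exact this))]
      exact H2 x hx

theorem gloc_face1 (a : E₁ × Bool) :
    ∃ y, gvert G₁.toData G₂.toData e₁ e₂ y = Sum.inl (G₁.vert a) ∧
      gface G₁ G₂ e₁ e₂ h1 h2 ((glue G₁.toData G₂.toData e₁ e₂ h1 h2).out y) =
        Sum.inl (G₁.loc (G₁.vert a)) := by
  obtain ⟨y, hy, hf⟩ := G₁.face_loc a
  by_cases g : y = (e₁, true)
  · subst g
    refine ⟨k2 (e₂, true), ?_, ?_⟩
    · rw [gvert_k2, phi_true _ _ _ _ h2, hy]
    · rw [out_k2, gface_dm2, hf]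
  · refine ⟨k1 y, ?_, ?_⟩
    · rw [gvert_k1, hy]
    · rw [out_k1, gface_j1 _ _ _ _ _ _ _ (fun h => g (G₁.out_inj h)), hf]

theorem gloc_face (x : (E₁ ⊕ E₂) × Bool) :
    ∃ y, gvert G₁.toData G₂.toData e₁ e₂ y = gvert G₁.toData G₂.toData e₁ e₂ x ∧
      gface G₁ G₂ e₁ e₂ h1 h2 ((glue G₁.toData G₂.toData e₁ e₂ h1 h2).out y) =
        gloc G₁ G₂ e₂ (gvert G₁.toData G₂.toData e₁ e₂ x) := by
  rcases k_cases x with ⟨a, rfl⟩ | ⟨a, rfl⟩
  · rw [gvert_k1]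
    exact gloc_face1 G₁ G₂ e₁ e₂ h1 h2 a
  · rw [gvert_k2]
    by_cases g1 : G₂.vert a = G₂.vert (e₂, false)
    · rw [g1, phi_false]
      exact gloc_face1 G₁ G₂ e₁ e₂ h1 h2 (e₁, false)
    · by_cases g2 : G₂.vert a = G₂.vert (e₂, true)
      · rw [g2, phi_true _ _ _ _ h2]
        exact gloc_face1 G₁ G₂ e₁ e₂ h1 h2 (e₁, true)
      · obtain ⟨y, hy, hf⟩ := G₂.face_loc a
        refine ⟨k2 y, ?_, ?_⟩
        · rw [gvert_k2, hy]
        · rw [out_k2, gface_j2, hf, phi_other _ _ _ _ _ g1 g2]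
          · rfl
          · intro h
            apply g2
            rw [← hy, G₂.out_inj h]

include u1 u2 in
theorem gface_next (d : (glue G₁.toData G₂.toData e₁ e₂ h1 h2).Dart) :
    gface G₁ G₂ e₁ e₂ h1 h2 ((glue G₁.toData G₂.toData e₁ e₂ h1 h2).next d) =
      gface G₁ G₂ e₁ e₂ h1 h2 d := by
  unfold gface
  rw [next_eq _ _ _ _ _ _ u1 u2, tau_tau, ff_nn]

theorem gface_surj (n1 : IsEmpty G₁.Iso) (n2 : IsEmpty G₂.Iso) (f : F₁ ⊕ F₂) :
    ∃ d, gface G₁ G₂ e₁ e₂ h1 h2 d = f := by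
  rcases f with f | f
  · rcases G₁.face_surj f with ⟨d, rfl⟩ | ⟨v, -⟩
    · refine ⟨tau _ _ e₁ e₂ h1 h2 (j1 _ _ e₁ e₂ h1 h2 d), ?_⟩
      unfold gface
      rw [tau_tau, ff_j1]
    · exact (n1.false v).elim
  · rcases G₂.face_surj f with ⟨d, rfl⟩ | ⟨v, -⟩
    · refine ⟨tau _ _ e₁ e₂ h1 h2 (j2 _ _ e₁ e₂ h1 h2 d), ?_⟩
      unfold gface
      rw [tau_tau, ff_j2]
    · exact (n2.false v).elim

theorem conn_aux {V E F : Type} [Finite E] (G : Drawing V E F) (e : E)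
    (hl : G.vert (e, false) ≠ G.vert (e, true)) (u : G.len e = 0) (A : Set F)
    (h : ∀ d : G.Dart, d.1.1 ≠ e → (G.face d ∈ A ↔ G.face (G.rev d) ∈ A)) :
    A = ∅ ∨ A = Set.univ := by
  apply G.conn
  have key := around G e hl (fun d => G.face d ∈ A) (fun d => by rw [G.face_next]) h
  intro d
  by_cases hd : d.1.1 = e
  · rcases dart_unc G e u d hd with rfl | rfl
    · exact key
    · rw [← rev_out1 G.toData e u, G.rev_rev]
      exact key.symm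
  · exact h d hd

include u1 u2 in
theorem gconn (A : Set (F₁ ⊕ F₂))
    (h : ∀ d, gface G₁ G₂ e₁ e₂ h1 h2 d ∈ A ↔
      gface G₁ G₂ e₁ e₂ h1 h2 ((glue G₁.toData G₂.toData e₁ e₂ h1 h2).rev d) ∈ A) :
    A = ∅ ∨ A = Set.univ := by
  have a1 := conn_aux G₁ e₁ h1 u1 (Sum.inl ⁻¹' A) (by
    intro d hd
    have := h (j1 _ _ e₁ e₂ h1 h2 d)
    rw [rev_j1, gface_j1 _ _ _ _ _ _ _ (fun h => hd (by rw [h]; rfl)),
        gface_j1 _ _ _ _ _ _ _ (fun h => hd (by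
          have := congrArg (fun d : G₁.Dart => d.1.1) h
          exact this))] at this
    exact this)
  have a2 := conn_aux G₂ e₂ h2 u2 (Sum.inr ⁻¹' A) (by
    intro d hd
    have := h (j2 _ _ e₁ e₂ h1 h2 d)
    rw [rev_j2, gface_j2 _ _ _ _ _ _ _ (fun h => hd (by rw [h]; rfl)),
        gface_j2 _ _ _ _ _ _ _ (fun h => hd (by
          have := congrArg (fun d : G₂.Dart => d.1.1) h
          exact this))] at this
    exact this)
  have a3 := h (j1 _ _ e₁ e₂ h1 h2 (G₁.out (e₁, false)))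
  rw [rev_j1, rev_out1 G₁.toData e₁ u1, gface_dm1, gface_j1 _ _ _ _ _ _ _ (out_ne1 _ _)] at a3
  have mem1 : ∀ f, f ∈ Sum.inl ⁻¹' A ↔ (Sum.inl f : F₁ ⊕ F₂) ∈ A := fun _ => Iff.rfl
  have mem2 : ∀ f, f ∈ Sum.inr ⁻¹' A ↔ (Sum.inr f : F₁ ⊕ F₂) ∈ A := fun _ => Iff.rfl
  rcases a1 with a1 | a1 <;> rcases a2 with a2 | a2
  · left
    ext f
    rcases f with f | f
    · rw [← mem1, a1]; exact Iff.rfl
    · rw [← mem2, a2]; exact Iff.rfl
  · exfalso
    rw [← mem1, ← mem2, a1, a2] at a3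
    exact a3.2 trivial
  · exfalso
    rw [← mem1, ← mem2, a1, a2] at a3
    exact a3.1 trivial
  · right
    ext f
    rcases f with f | f
    · rw [← mem1, a1]; exact Iff.rfl
    · rw [← mem2, a2]; exact Iff.rfl

include h2 in
theorem card_GV [Finite V₁] [Finite V₂] :
    Nat.card (GV V₁ G₂.toData e₂) + 2 = Nat.card V₁ + Nat.card V₂ := by
  have k := Set.ncard_add_ncard_compl ({G₂.vert (e₂, false), G₂.vert (e₂, true)} : Set V₂)
  rw [Set.ncard_pair h2] at k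
  have k2 : Nat.card {v : V₂ // v ≠ G₂.vert (e₂, false) ∧ v ≠ G₂.vert (e₂, true)} =
      (({G₂.vert (e₂, false), G₂.vert (e₂, true)} : Set V₂)ᶜ).ncard := by
    rw [← Nat.card_coe_set_eq]
    refine Nat.card_congr (Equiv.subtypeEquivRight fun v => ?_)
    simp
  rw [Nat.card_sum, k2]
  omega

theorem card_X : Nat.card (Σ e, Fin (glen G₁.toData G₂.toData e)) =
    Nat.card (Σ e, Fin (G₁.len e)) + Nat.card (Σ e, Fin (G₂.len e)) := by
  rw [← Nat.card_sum]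
  exact Nat.card_congr (Equiv.sumSigmaDistrib _)

theorem card_S : Nat.card (Σ e, Fin (glen G₁.toData G₂.toData e + 1)) =
    Nat.card (Σ e, Fin (G₁.len e + 1)) + Nat.card (Σ e, Fin (G₂.len e + 1)) := by
  rw [← Nat.card_sum]
  exact Nat.card_congr (Equiv.sumSigmaDistrib _)

/-- The glued drawing. -/
noncomputable def glueD [Finite V₁] [Finite V₂] [Finite F₁] [Finite F₂]
    (n1 : IsEmpty G₁.Iso) (n2 : IsEmpty G₂.Iso)
    (c1 : Nat.card G₁.Comp = 1) (c2 : Nat.card G₂.Comp = 1) :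
    Drawing (GV V₁ G₂.toData e₂) (E₁ ⊕ E₂) (F₁ ⊕ F₂) where
  toData := glue G₁.toData G₂.toData e₁ e₂ h1 h2
  face := gface G₁ G₂ e₁ e₂ h1 h2
  loc := gloc G₁ G₂ e₂
  face_next := gface_next G₁ G₂ e₁ e₂ h1 h2 u1 u2
  face_loc := gloc_face G₁ G₂ e₁ e₂ h1 h2
  face_surj f := Or.inl (gface_surj G₁ G₂ e₁ e₂ h1 h2 n1 n2 f)
  euler := by
    have a := card_GV (V₁ := V₁) G₂ e₂ h2
    have b := card_X G₁ G₂
    have c := card_S G₁ G₂
    have d := card_walk G₁.toData G₂.toData e₁ e₂ h1 h2 u1 u2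
    have e := card_comp G₁.toData G₂.toData e₁ e₂ h1 h2 u1 u2 c1 c2
    have f := G₁.euler
    have g := G₂.euler
    have i := iso_empty G₁.toData G₂.toData e₁ e₂ h1 h2 n1 n2
    have i0 : Nat.card (glue G₁.toData G₂.toData e₁ e₂ h1 h2).Iso = 0 := Nat.card_of_isEmpty
    have i1 : Nat.card G₁.Iso = 0 := Nat.card_of_isEmpty
    have i2 : Nat.card G₂.Iso = 0 := Nat.card_of_isEmpty
    have b' : Nat.card (Σ e, Fin ((glue G₁.toData G₂.toData e₁ e₂ h1 h2).len e)) =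
      Nat.card (Σ e, Fin (G₁.len e)) + Nat.card (Σ e, Fin (G₂.len e)) := b
    have c' : Nat.card (Σ e, Fin ((glue G₁.toData G₂.toData e₁ e₂ h1 h2).len e + 1)) =
      Nat.card (Σ e, Fin (G₁.len e + 1)) + Nat.card (Σ e, Fin (G₂.len e + 1)) := c
    omega
  card_face := by
    have d := card_walk G₁.toData G₂.toData e₁ e₂ h1 h2 u1 u2
    have e := card_comp G₁.toData G₂.toData e₁ e₂ h1 h2 u1 u2 c1 c2
    have f := G₁.card_face
    have g := G₂.card_face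
    have i := iso_empty G₁.toData G₂.toData e₁ e₂ h1 h2 n1 n2
    have i0 : Nat.card (glue G₁.toData G₂.toData e₁ e₂ h1 h2).Iso = 0 := Nat.card_of_isEmpty
    have i1 : Nat.card G₁.Iso = 0 := Nat.card_of_isEmpty
    have i2 : Nat.card G₂.Iso = 0 := Nat.card_of_isEmpty
    rw [Nat.card_sum]
    omega
  conn := gconn G₁ G₂ e₁ e₂ h1 h2 u1 u2

end Pool.Agent.U423.FP
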