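import Pool.Agent.U423.FP.GlueF

/-!
# Gluing two drawings along uncrossed edges: the properties of the glued drawing
-/

set_option autoImplicit false

namespace Pool.Agent.U423.FP

open Pool.Agent.Q238.FP

/-- the two edges are non-homotopic -/
def NH {V E F : Type} (G : Drawing V E F) (e e' : E) : Prop :=
  ∃ A, G.Region e e' A ∧
      (∃ v, v ≠ G.vert (e, false) ∧ v ≠ G.vert (e, true) ∧ G.loc v ∈ A) ∧
      ∃ v, v ≠ G.vert (e, false) ∧ v ≠ G.vert (e, true) ∧ G.loc v ∉ A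

theorem region_compl {V E F : Type} (G : Drawing V E F) {e e' : E} {A : Set F}
    (h : G.Region e e' A) : G.Region e e' Aᶜ := by
  intro d
  rw [← h d, Set.mem_compl_iff, Set.mem_compl_iff]
  tauto

theorem region_symm {V E F : Type} (G : Drawing V E F) {e e' : E} {A : Set F}
    (h : G.Region e e' A) : G.Region e' e A := by
  intro d
  rw [h d]
  tauto

theorem nh_symm {V E F : Type} (G : Drawing V E F) {e e' : E}
    (hp : ({G.vert (e, false), G.vert (e, true)} : Set V) =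
      {G.vert (e', false), G.vert (e', true)}) (h : NH G e e') : NH G e' e := by
  obtain ⟨A, hA, ⟨v, hv1, hv2, hv3⟩, ⟨w, hw1, hw2, hw3⟩⟩ := h
  have key : ∀ v, v ≠ G.vert (e, false) → v ≠ G.vert (e, true) →
      v ≠ G.vert (e', false) ∧ v ≠ G.vert (e', true) := by
    intro v h1 h2
    have h3 : v ∉ ({G.vert (e, false), G.vert (e, true)} : Set V) := by
      simp [h1, h2]
    rw [hp] at h3
    simpa using h3
  exact ⟨A, region_symm G hA, ⟨v, (key v hv1 hv2).1, (key v hv1 hv2).2, hv3⟩,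
    ⟨w, (key w hw1 hw2).1, (key w hw1 hw2).2, hw3⟩⟩

theorem pick {V E F : Type} (G : Drawing V E F) {e e' : E} (h : NH G e e') (f : F) :
    ∃ A, G.Region e e' A ∧ f ∈ A ∧
      (∃ v, v ≠ G.vert (e, false) ∧ v ≠ G.vert (e, true) ∧ G.loc v ∈ A) ∧
      ∃ v, v ≠ G.vert (e, false) ∧ v ≠ G.vert (e, true) ∧ G.loc v ∉ A := by
  obtain ⟨A, hA, ⟨v, hv1, hv2, hv3⟩, ⟨w, hw1, hw2, hw3⟩⟩ := h
  by_cases hf : f ∈ A
  · exact ⟨A, hA, hf, ⟨v, hv1, hv2, hv3⟩, ⟨w, hw1, hw2, hw3⟩⟩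
  · exact ⟨Aᶜ, region_compl G hA, hf, ⟨w, hw1, hw2, hw3⟩, ⟨v, hv1, hv2, fun h => h hv3⟩⟩

theorem flipf {V E F : Type} (G : Drawing V E F) {e e' : E} {A : Set F} (hA : G.Region e e' A)
    (x : E) (u : G.len x = 0) (hx : x = e ∨ x = e') (h : G.face (G.out (x, false)) ∈ A) :
    G.face (G.out (x, true)) ∉ A := by
  have h1 := hA (G.out (x, false))
  rw [rev_out1 G.toData x u] at h1
  intro h2
  have h3 := h1.1 ⟨fun _ => h2, fun _ => h⟩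
  change x ≠ e ∧ x ≠ e' at h3
  tauto

variable {V₁ E₁ F₁ V₂ E₂ F₂ : Type} (G₁ : Drawing V₁ E₁ F₁) (G₂ : Drawing V₂ E₂ F₂)
  (e₁ : E₁) (e₂ : E₂) [Finite E₁] [Finite E₂]
  (h1 : G₁.vert (e₁, false) ≠ G₁.vert (e₁, true))
  (h2 : G₂.vert (e₂, false) ≠ G₂.vert (e₂, true))
  (u1 : G₁.len e₁ = 0) (u2 : G₂.len e₂ = 0)
  [Finite V₁] [Finite V₂] [Finite F₁] [Finite F₂]
    (n1 : IsEmpty G₁.Iso) (n2 : IsEmpty G₂.Iso)
    (c1 : Nat.card G₁.Comp = 1) (c2 : Nat.card G₂.Comp = 1)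

/-- the glued drawing -/
noncomputable abbrev GG := glueD G₁ G₂ e₁ e₂ h1 h2 u1 u2 n1 n2 c1 c2

theorem GG_vert1 (a : E₁) (b : Bool) : (GG G₁ G₂ e₁ e₂ h1 h2 u1 u2 n1 n2 c1 c2).vert
    (Sum.inl a, b) = Sum.inl (G₁.vert (a, b)) := rfl

theorem GG_vert2 (a : E₂) (b : Bool) : (GG G₁ G₂ e₁ e₂ h1 h2 u1 u2 n1 n2 c1 c2).vert
    (Sum.inr a, b) = phi G₁.toData G₂.toData e₁ e₂ (G₂.vert (a, b)) := rfl

theorem GG_loopless (l1 : G₁.Loopless) (l2 : G₂.Loopless) :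
    (GG G₁ G₂ e₁ e₂ h1 h2 u1 u2 n1 n2 c1 c2).Loopless := by
  rintro (a | a) h
  · rw [GG_vert1, GG_vert1] at h
    exact l1 a (Sum.inl_injective h)
  · rw [GG_vert2, GG_vert2] at h
    exact l2 a (phi_inj _ _ _ _ h1 h2 h)

theorem GG_simple (l1 : G₁.Simple) (l2 : G₂.Simple) :
    (GG G₁ G₂ e₁ e₂ h1 h2 u1 u2 n1 n2 c1 c2).Simple := by
  constructor
  · intro x b b'
    rcases i_cases _ _ x with ⟨y, rfl⟩ | ⟨y, rfl⟩
    · intro h
      change (Sum.inl (G₁.vert (y.1, b)) : GV V₁ G₂.toData e₂) =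
        Sum.inl (G₁.vert ((G₁.cr y).1, b')) at h
      exact l1.1 y b b' (Sum.inl_injective h)
    · intro h
      change phi G₁.toData G₂.toData e₁ e₂ (G₂.vert (y.1, b)) =
        phi G₁.toData G₂.toData e₁ e₂ (G₂.vert ((G₂.cr y).1, b')) at h
      exact l2.1 y b b' (phi_inj _ _ _ _ h1 h2 h)
  · intro x y hxy hc
    rcases i_cases _ _ x with ⟨x, rfl⟩ | ⟨x, rfl⟩ <;>
      rcases i_cases _ _ y with ⟨y, rfl⟩ | ⟨y, rfl⟩
    · change (Sum.inl x.1 : E₁ ⊕ E₂) = Sum.inl y.1 at hxy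
      change (Sum.inl (G₁.cr x).1 : E₁ ⊕ E₂) = Sum.inl (G₁.cr y).1 at hc
      rw [l1.2 x y (Sum.inl_injective hxy) (Sum.inl_injective hc)]
    · change (Sum.inl x.1 : E₁ ⊕ E₂) = Sum.inr y.1 at hxy
      exact absurd hxy (by simp)
    · change (Sum.inr x.1 : E₁ ⊕ E₂) = Sum.inl y.1 at hxy
      exact absurd hxy (by simp)
    · change (Sum.inr x.1 : E₁ ⊕ E₂) = Sum.inr y.1 at hxy
      change (Sum.inr (G₂.cr x).1 : E₁ ⊕ E₂) = Sum.inr (G₂.cr y).1 at hc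
      rw [l2.2 x y (Sum.inr_injective hxy) (Sum.inr_injective hc)]

theorem GG_fan (l1 : G₁.FanPlanar) (l2 : G₂.FanPlanar) :
    (GG G₁ G₂ e₁ e₂ h1 h2 u1 u2 n1 n2 c1 c2).FanPlanar := by
  rintro (a | a)
  · rcases l1 a with ⟨w, hw⟩ | ⟨w, hw⟩
    · refine Or.inl ⟨Sum.inl w, fun i => ?_⟩
      change Sum.inl (G₁.leftEnd ⟨a, i⟩) = _
      rw [hw]
    · refine Or.inr ⟨Sum.inl w, fun i => ?_⟩
      change Sum.inl (G₁.rightEnd ⟨a, i⟩) = _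
      rw [hw]
  · rcases l2 a with ⟨w, hw⟩ | ⟨w, hw⟩
    · refine Or.inl ⟨phi G₁.toData G₂.toData e₁ e₂ w, fun i => ?_⟩
      change phi G₁.toData G₂.toData e₁ e₂ (G₂.leftEnd ⟨a, i⟩) = _
      rw [hw]
    · refine Or.inr ⟨phi G₁.toData G₂.toData e₁ e₂ w, fun i => ?_⟩
      change phi G₁.toData G₂.toData e₁ e₂ (G₂.rightEnd ⟨a, i⟩) = _
      rw [hw]

theorem nh11 (a a' : E₁) (h : NH G₁ a a') :
    NH (GG G₁ G₂ e₁ e₂ h1 h2 u1 u2 n1 n2 c1 c2) (Sum.inl a) (Sum.inl a') := by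
  obtain ⟨A, hA, ⟨v, hv1, hv2, hv3⟩, ⟨w, hw1, hw2, hw3⟩⟩ := h
  refine ⟨AA A {_f | G₁.face (G₁.out (e₁, true)) ∈ A}, ?_, ⟨Sum.inl v, ?_, ?_, hv3⟩,
    ⟨Sum.inl w, ?_, ?_, hw3⟩⟩
  · refine sides G₁ G₂ e₁ e₂ h1 h2 u1 u2 (fun e => e ≠ Sum.inl a ∧ e ≠ Sum.inl a') _ ?_ ?_ ?_ ?_
    · intro d hd
      rw [mem_AA_inl, mem_AA_inl, hA d]
      simp
    · intro d hd
      rw [mem_AA_inr, mem_AA_inr]
      simp
    · rw [mem_AA_inl, mem_AA_inr]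
      have := hA (G₁.out (e₁, false))
      rw [rev_out1 G₁.toData e₁ u1] at this
      change (_ ↔ _) ↔ (e₁ ≠ a ∧ e₁ ≠ a') at this
      rw [Set.mem_ofPred_eq, this]
      simp
    · rw [mem_AA_inl, mem_AA_inr]
      simp
  · intro h; exact hv1 (Sum.inl_injective h)
  · intro h; exact hv2 (Sum.inl_injective h)
  · intro h; exact hw1 (Sum.inl_injective h)
  · intro h; exact hw2 (Sum.inl_injective h)

include h2 u2 in
/-- the face of a vertex of the second drawing, seen in the glued drawing -/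
theorem gloc_phi {a a' : E₂} {A : Set F₂} (hA : G₂.Region a a' A) (v : V₂)
    (g1 : v ≠ G₂.vert (a, false)) (g2 : v ≠ G₂.vert (a, true))
    (g3 : v ≠ G₂.vert (a', false)) (g4 : v ≠ G₂.vert (a', true)) :
    gloc G₁ G₂ e₂ (phi G₁.toData G₂.toData e₁ e₂ v) ∈
      AA {_f : F₁ | G₂.face (G₂.out (e₂, true)) ∈ A} A ↔ G₂.loc v ∈ A := by
  have a1 : ∀ x : E₂ × Bool, v = G₂.vert x → (G₂.face (G₂.out x) ∈ A ↔ G₂.loc v ∈ A) := by
    intro x hx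
    subst hx
    refine G₂.loc_mem hA x ?_ ?_
    · intro b; cases b
      · exact g1.symm
      · exact g2.symm
    · intro b; cases b
      · exact g3.symm
      · exact g4.symm
  by_cases k1 : v = G₂.vert (e₂, false)
  · have a2 := a1 _ k1
    rw [← a2, k1, phi_false]
    change G₂.face (G₂.out (e₂, true)) ∈ A ↔ _
    have a3 := hA (G₂.out (e₂, false))
    rw [rev_out1 G₂.toData e₂ u2] at a3
    refine (a3.2 ⟨?_, ?_⟩).symm
    · rintro rfl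
      exact g1 k1
    · rintro rfl
      exact g3 k1
  · by_cases k2 : v = G₂.vert (e₂, true)
    · have a2 := a1 _ k2
      rw [← a2, k2, phi_true _ _ _ _ h2]
      exact Iff.rfl
    · rw [phi_other _ _ _ _ _ k1 k2]
      exact Iff.rfl

theorem nh22 (a a' : E₂) (hp : ({G₂.vert (a, false), G₂.vert (a, true)} : Set V₂) =
      {G₂.vert (a', false), G₂.vert (a', true)}) (h : NH G₂ a a') :
    NH (GG G₁ G₂ e₁ e₂ h1 h2 u1 u2 n1 n2 c1 c2) (Sum.inr a) (Sum.inr a') := by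
  obtain ⟨A, hA, ⟨v, hv1, hv2, hv3⟩, ⟨w, hw1, hw2, hw3⟩⟩ := h
  have key : ∀ v, v ≠ G₂.vert (a, false) → v ≠ G₂.vert (a, true) →
      v ≠ G₂.vert (a', false) ∧ v ≠ G₂.vert (a', true) := by
    intro v h1 h2
    have h3 : v ∉ ({G₂.vert (a, false), G₂.vert (a, true)} : Set V₂) := by
      simp [h1, h2]
    rw [hp] at h3
    simpa using h3
  have hpi := phi_inj G₁.toData G₂.toData e₁ e₂ h1 h2
  refine ⟨AA {_f | G₂.face (G₂.out (e₂, true)) ∈ A} A, ?_,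
    ⟨phi G₁.toData G₂.toData e₁ e₂ v, ?_, ?_, ?_⟩,
    ⟨phi G₁.toData G₂.toData e₁ e₂ w, ?_, ?_, ?_⟩⟩
  · refine sides G₁ G₂ e₁ e₂ h1 h2 u1 u2 (fun e => e ≠ Sum.inr a ∧ e ≠ Sum.inr a') _ ?_ ?_ ?_ ?_
    · intro d hd
      rw [mem_AA_inl, mem_AA_inl]
      simp
    · intro d hd
      rw [mem_AA_inr, mem_AA_inr, hA d]
      simp
    · rw [mem_AA_inl, mem_AA_inr]
      simp
    · rw [mem_AA_inl, mem_AA_inr]
      have := hA (G₂.out (e₂, false))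
      rw [rev_out1 G₂.toData e₂ u2] at this
      change (_ ↔ _) ↔ (e₂ ≠ a ∧ e₂ ≠ a') at this
      rw [Set.mem_ofPred_eq, this]
      simp
  · intro h; exact hv1 (hpi h)
  · intro h; exact hv2 (hpi h)
  · exact (gloc_phi G₁ G₂ e₁ e₂ h2 u2 hA v hv1 hv2 (key v hv1 hv2).1 (key v hv1 hv2).2).2 hv3
  · intro h; exact hw1 (hpi h)
  · intro h; exact hw2 (hpi h)
  · intro h
    exact hw3 ((gloc_phi G₁ G₂ e₁ e₂ h2 u2 hA w hw1 hw2 (key w hw1 hw2).1 (key w hw1 hw2).2).1 h)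

/-- the ends of two parallel edges of different sides -/
theorem ends12 (x : E₁) (y : E₂) (l1 : G₁.Loopless) (l2 : G₂.Loopless)
    (hp : ({(GG G₁ G₂ e₁ e₂ h1 h2 u1 u2 n1 n2 c1 c2).vert (Sum.inl x, false),
      (GG G₁ G₂ e₁ e₂ h1 h2 u1 u2 n1 n2 c1 c2).vert (Sum.inl x, true)} :
        Set (GV V₁ G₂.toData e₂)) =
      {(GG G₁ G₂ e₁ e₂ h1 h2 u1 u2 n1 n2 c1 c2).vert (Sum.inr y, false),
      (GG G₁ G₂ e₁ e₂ h1 h2 u1 u2 n1 n2 c1 c2).vert (Sum.inr y, true)}) :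
    ({G₁.vert (x, false), G₁.vert (x, true)} : Set V₁) =
      {G₁.vert (e₁, false), G₁.vert (e₁, true)} ∧
    ({G₂.vert (y, false), G₂.vert (y, true)} : Set V₂) =
      {G₂.vert (e₂, false), G₂.vert (e₂, true)} := by
  rw [GG_vert1, GG_vert1, GG_vert2, GG_vert2] at hp
  have hl1 := l1 x
  have hl2 := l2 y
  rw [Set.pair_eq_pair_iff] at hp
  rcases hp with ⟨p1, p2⟩ | ⟨p1, p2⟩
  · rcases phi_eq_inl _ _ _ _ h2 _ _ p1.symm with ⟨q1, q2⟩ | ⟨q1, q2⟩ <;>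
      rcases phi_eq_inl _ _ _ _ h2 _ _ p2.symm with ⟨q3, q4⟩ | ⟨q3, q4⟩
    · exact absurd (q1.trans q3.symm) hl2
    · rw [q1, q2, q3, q4]; exact ⟨rfl, rfl⟩
    · rw [q1, q2, q3, q4]; exact ⟨Set.pair_comm _ _, Set.pair_comm _ _⟩
    · exact absurd (q1.trans q3.symm) hl2
  · rcases phi_eq_inl _ _ _ _ h2 _ _ p1.symm with ⟨q1, q2⟩ | ⟨q1, q2⟩ <;>
      rcases phi_eq_inl _ _ _ _ h2 _ _ p2.symm with ⟨q3, q4⟩ | ⟨q3, q4⟩
    · exact absurd (q1.trans q3.symm) hl2.symm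
    · rw [q1, q2, q3, q4]; exact ⟨rfl, Set.pair_comm _ _⟩
    · rw [q1, q2, q3, q4]; exact ⟨Set.pair_comm _ _, rfl⟩
    · exact absurd (q1.trans q3.symm) hl2.symm

theorem nh12 (x : E₁) (y : E₂) (l1 : G₁.Loopless) (l2 : G₂.Loopless)
    (m1 : G₁.NonHomotopic) (m2 : G₂.NonHomotopic)
    (t1 : ∃ v, v ≠ G₁.vert (e₁, false) ∧ v ≠ G₁.vert (e₁, true))
    (t2 : ∃ v, v ≠ G₂.vert (e₂, false) ∧ v ≠ G₂.vert (e₂, true))
    (hp : ({(GG G₁ G₂ e₁ e₂ h1 h2 u1 u2 n1 n2 c1 c2).vert (Sum.inl x, false),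
      (GG G₁ G₂ e₁ e₂ h1 h2 u1 u2 n1 n2 c1 c2).vert (Sum.inl x, true)} :
        Set (GV V₁ G₂.toData e₂)) =
      {(GG G₁ G₂ e₁ e₂ h1 h2 u1 u2 n1 n2 c1 c2).vert (Sum.inr y, false),
      (GG G₁ G₂ e₁ e₂ h1 h2 u1 u2 n1 n2 c1 c2).vert (Sum.inr y, true)}) :
    NH (GG G₁ G₂ e₁ e₂ h1 h2 u1 u2 n1 n2 c1 c2) (Sum.inl x) (Sum.inr y) := by
  obtain ⟨p1, p2⟩ := ends12 G₁ G₂ e₁ e₂ h1 h2 u1 u2 n1 n2 c1 c2 x y l1 l2 hp
  by_cases hx : x = e₁ <;> by_cases hy : y = e₂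
  · subst hx hy
    obtain ⟨v, hv1, hv2⟩ := t1
    obtain ⟨w, hw1, hw2⟩ := t2
    refine ⟨AA Set.univ ∅, ?_, ⟨Sum.inl v, ?_, ?_, trivial⟩, ⟨Sum.inr ⟨w, hw1, hw2⟩, ?_, ?_, ?_⟩⟩
    · refine sides G₁ G₂ x y h1 h2 u1 u2 (fun e => e ≠ Sum.inl x ∧ e ≠ Sum.inr y) _ ?_ ?_ ?_ ?_
      · intro d hd
        rw [mem_AA_inl, mem_AA_inl]
        simp [hd]
      · intro d hd
        rw [mem_AA_inr, mem_AA_inr]
        simp [hd]
      · rw [mem_AA_inl, mem_AA_inr]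
        simp
      · rw [mem_AA_inl, mem_AA_inr]
        simp
    · intro h; exact hv1 (Sum.inl_injective h)
    · intro h; exact hv2 (Sum.inl_injective h)
    · intro h; rw [GG_vert1] at h; exact absurd h (by simp)
    · intro h; rw [GG_vert1] at h; exact absurd h (by simp)
    · intro h; exact h
  · subst hx
    obtain ⟨A, hA, hf, ⟨v, hv1, hv2, hv3⟩, ⟨w, hw1, hw2, hw3⟩⟩ :=
      pick G₂ (m2 y e₂ hy p2) (G₂.face (G₂.out (e₂, false)))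
    have hg := flipf G₂ hA e₂ u2 (Or.inr rfl) hf
    have key : ∀ v, v ≠ G₂.vert (y, false) → v ≠ G₂.vert (y, true) →
        v ≠ G₂.vert (e₂, false) ∧ v ≠ G₂.vert (e₂, true) := by
      intro v h1 h2
      have h3 : v ∉ ({G₂.vert (y, false), G₂.vert (y, true)} : Set V₂) := by
        simp [h1, h2]
      rw [p2] at h3
      simpa using h3
    refine ⟨AA Set.univ A, ?_, ⟨Sum.inr ⟨v, key v hv1 hv2⟩, ?_, ?_, hv3⟩,
      ⟨Sum.inr ⟨w, key w hw1 hw2⟩, ?_, ?_, hw3⟩⟩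
    · refine sides G₁ G₂ x e₂ h1 h2 u1 u2 (fun e => e ≠ Sum.inl x ∧ e ≠ Sum.inr y) _ ?_ ?_ ?_ ?_
      · intro d hd
        rw [mem_AA_inl, mem_AA_inl]
        simp [hd]
      · intro d hd
        rw [mem_AA_inr, mem_AA_inr, hA d]
        simp [hd]
      · rw [mem_AA_inl, mem_AA_inr]
        simp [hg]
      · rw [mem_AA_inl, mem_AA_inr]
        simp [hf, Ne.symm hy]
    · intro h; rw [GG_vert1] at h; exact absurd h (by simp)
    · intro h; rw [GG_vert1] at h; exact absurd h (by simp)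
    · intro h; rw [GG_vert1] at h; exact absurd h (by simp)
    · intro h; rw [GG_vert1] at h; exact absurd h (by simp)
  · subst hy
    obtain ⟨A, hA, hf, ⟨v, hv1, hv2, hv3⟩, ⟨w, hw1, hw2, hw3⟩⟩ :=
      pick G₁ (m1 x e₁ hx p1) (G₁.face (G₁.out (e₁, false)))
    have hg := flipf G₁ hA e₁ u1 (Or.inr rfl) hf
    refine ⟨AA A Set.univ, ?_, ⟨Sum.inl v, ?_, ?_, hv3⟩, ⟨Sum.inl w, ?_, ?_, hw3⟩⟩
    · refine sides G₁ G₂ e₁ y h1 h2 u1 u2 (fun e => e ≠ Sum.inl x ∧ e ≠ Sum.inr y) _ ?_ ?_ ?_ ?_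
      · intro d hd
        rw [mem_AA_inl, mem_AA_inl, hA d]
        simp [hd]
      · intro d hd
        rw [mem_AA_inr, mem_AA_inr]
        simp [hd]
      · rw [mem_AA_inl, mem_AA_inr]
        simp [hf, Ne.symm hx]
      · rw [mem_AA_inl, mem_AA_inr]
        simp [hg]
    · intro h; exact hv1 (Sum.inl_injective h)
    · intro h; exact hv2 (Sum.inl_injective h)
    · intro h; exact hw1 (Sum.inl_injective h)
    · intro h; exact hw2 (Sum.inl_injective h)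
  · obtain ⟨A, hA, hf, ⟨v, hv1, hv2, hv3⟩, ⟨w, hw1, hw2, hw3⟩⟩ :=
      pick G₁ (m1 x e₁ hx p1) (G₁.face (G₁.out (e₁, false)))
    obtain ⟨B, hB, hb, -, -⟩ :=
      pick G₂ (m2 y e₂ hy p2) (G₂.face (G₂.out (e₂, true)))
    have hg := flipf G₁ hA e₁ u1 (Or.inr rfl) hf
    have hh : G₂.face (G₂.out (e₂, false)) ∉ B := fun h => flipf G₂ hB e₂ u2 (Or.inr rfl) h hb
    refine ⟨AA A B, ?_, ⟨Sum.inl v, ?_, ?_, hv3⟩, ⟨Sum.inl w, ?_, ?_, hw3⟩⟩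
    · refine sides G₁ G₂ e₁ e₂ h1 h2 u1 u2 (fun e => e ≠ Sum.inl x ∧ e ≠ Sum.inr y) _ ?_ ?_ ?_ ?_
      · intro d hd
        rw [mem_AA_inl, mem_AA_inl, hA d]
        simp [hd]
      · intro d hd
        rw [mem_AA_inr, mem_AA_inr, hB d]
        simp [hd]
      · rw [mem_AA_inl, mem_AA_inr]
        simp [hf, hb, Ne.symm hx]
      · rw [mem_AA_inl, mem_AA_inr]
        simp [hg, hh, Ne.symm hy]
    · intro h; exact hv1 (Sum.inl_injective h)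
    · intro h; exact hv2 (Sum.inl_injective h)
    · intro h; exact hw1 (Sum.inl_injective h)
    · intro h; exact hw2 (Sum.inl_injective h)

theorem GG_nonhomotopic (l1 : G₁.Loopless) (l2 : G₂.Loopless)
    (m1 : G₁.NonHomotopic) (m2 : G₂.NonHomotopic)
    (t1 : ∃ v, v ≠ G₁.vert (e₁, false) ∧ v ≠ G₁.vert (e₁, true))
    (t2 : ∃ v, v ≠ G₂.vert (e₂, false) ∧ v ≠ G₂.vert (e₂, true)) :
    (GG G₁ G₂ e₁ e₂ h1 h2 u1 u2 n1 n2 c1 c2).NonHomotopic := by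
  rintro (x | x) (y | y) hne hp
  · refine nh11 G₁ G₂ e₁ e₂ h1 h2 u1 u2 n1 n2 c1 c2 x y (m1 x y (fun h => hne (by rw [h])) ?_)
    rw [GG_vert1, GG_vert1, GG_vert1, GG_vert1] at hp
    apply (Set.image_injective.2 (Sum.inl_injective :
      Function.Injective (Sum.inl : V₁ → GV V₁ G₂.toData e₂)))
    rw [Set.image_pair, Set.image_pair]
    exact hp
  · exact nh12 G₁ G₂ e₁ e₂ h1 h2 u1 u2 n1 n2 c1 c2 x y l1 l2 m1 m2 t1 t2 hp
  · exact nh_symm _ hp.symm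
      (nh12 G₁ G₂ e₁ e₂ h1 h2 u1 u2 n1 n2 c1 c2 y x l1 l2 m1 m2 t1 t2 hp.symm)
  · have hp' : ({G₂.vert (x, false), G₂.vert (x, true)} : Set V₂) =
        {G₂.vert (y, false), G₂.vert (y, true)} := by
      rw [GG_vert2, GG_vert2, GG_vert2, GG_vert2] at hp
      apply (Set.image_injective.2 (phi_inj G₁.toData G₂.toData e₁ e₂ h1 h2))
      rw [Set.image_pair, Set.image_pair]
      exact hp
    exact nh22 G₁ G₂ e₁ e₂ h1 h2 u1 u2 n1 n2 c1 c2 x y hp' (m2 x y (fun h => hne (by rw [h])) hp')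

end Pool.Agent.U423.FP
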