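import Pool.Agent.U423.FP.GlueN

/-!
# Extremal fan-planar drawings: gluing, and certificates for explicit drawings
-/

set_option autoImplicit false

namespace Pool.Agent.U423.FP

open Pool.Agent.Q238.FP

/-- There is a connected fan-planar drawing of the kind in question with `n` vertices, `m` edges and
an uncrossed edge. -/
def Good (n m : ℕ) : Prop :=
  ∃ (V E F : Type) (_ : Finite V) (_ : Finite E) (_ : Finite F) (G : Drawing V E F) (e : E),
    Nat.card V = n ∧ Nat.card E = m ∧ G.Loopless ∧ G.Simple ∧ G.FanPlanar ∧ G.NonHomotopic ∧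
    G.len e = 0 ∧ IsEmpty G.Iso ∧ Nat.card G.Comp = 1

theorem exists_third {V : Type} [Finite V] (h : 3 ≤ Nat.card V) (a b : V) :
    ∃ v, v ≠ a ∧ v ≠ b := by
  by_contra hcon
  push Not at hcon
  have h1 : (Set.univ : Set V) ⊆ {a, b} := by
    intro v _
    by_cases hv : v = a
    · exact Or.inl hv
    · exact Or.inr (hcon v hv)
  have h2 := Set.ncard_le_ncard h1
  have h3 : ({a, b} : Set V).ncard ≤ 2 := by
    refine (Set.ncard_insert_le a {b}).trans ?_
    rw [Set.ncard_singleton]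
  rw [Set.ncard_univ] at h2
  omega

theorem good_glue {n n' m m' : ℕ} (hn : 3 ≤ n) (hn' : 3 ≤ n') (g : Good n m) (g' : Good n' m') :
    Good (n + n' - 2) (m + m') := by
  obtain ⟨V₁, E₁, F₁, _, _, _, G₁, e₁, v1, m1, l1, s1, f1, k1, u1, n1, c1⟩ := g
  obtain ⟨V₂, E₂, F₂, _, _, _, G₂, e₂, v2, m2, l2, s2, f2, k2, u2, n2, c2⟩ := g'
  refine ⟨GV V₁ G₂.toData e₂, E₁ ⊕ E₂, F₁ ⊕ F₂, inferInstance, inferInstance, inferInstance,
    GG G₁ G₂ e₁ e₂ (l1 e₁) (l2 e₂) u1 u2 n1 n2 c1 c2, Sum.inl e₁, ?_, ?_, ?_, ?_, ?_, ?_, u1,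
    ?_, ?_⟩
  · have := card_GV (V₁ := V₁) G₂ e₂ (l2 e₂)
    omega
  · rw [Nat.card_sum, m1, m2]
  · exact GG_loopless _ _ _ _ _ _ _ _ _ _ _ _ l1 l2
  · exact GG_simple _ _ _ _ _ _ _ _ _ _ _ _ s1 s2
  · exact GG_fan _ _ _ _ _ _ _ _ _ _ _ _ f1 f2
  · exact GG_nonhomotopic _ _ _ _ _ _ _ _ _ _ _ _ l1 l2 k1 k2
      (exists_third (by omega) _ _) (exists_third (by omega) _ _)
  · exact iso_empty _ _ _ _ (l1 e₁) (l2 e₂) n1 n2
  · exact card_comp _ _ _ _ (l1 e₁) (l2 e₂) u1 u2 c1 c2

/-- a certificate for an explicit drawing -/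
structure Cert {n m : ℕ} (G : Data (Fin n) (Fin m)) (f : ℕ) where
  /-- the faces -/
  face : G.Dart → Fin f
  /-- an edge end at each vertex -/
  corner : Fin n → Fin m × Bool
  /-- a dart of each face -/
  rep : Fin f → G.Dart
  /-- a dart leading to a smaller face -/
  par : Fin f → G.Dart
  /-- regions -/
  mask : Fin m → ℕ
  /-- an uncrossed edge -/
  unc : Fin m
  pos : 0 < f
  face_next : ∀ d, face (G.next d) = face d
  vert_corner : ∀ v, G.vert (corner v) = v
  orbit : ∀ d, ∃ k : Fin 12, G.next^[k.1] (rep (face d)) = d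
  face_rep : ∀ g, face (rep g) = g
  par_face : ∀ g, g.1 ≠ 0 → face (par g) = g ∧ (face (G.rev (par g))).1 < g.1
  euler : 2 * n + (∑ e, G.len e) + 2 * f = 2 * (∑ e, (G.len e + 1)) + 4
  loopless : ∀ e, G.vert (e, false) ≠ G.vert (e, true)
  simple1 : ∀ (x : Σ e, Fin (G.len e)) (b b' : Bool), G.vert (x.1, b) ≠ G.vert ((G.cr x).1, b')
  simple2 : ∀ (e : Fin m) (i j : Fin (G.len e)), (G.cr ⟨e, i⟩).1 = (G.cr ⟨e, j⟩).1 → i = j
  fan : ∀ e, (∃ w, ∀ i, G.leftEnd ⟨e, i⟩ = w) ∨ ∃ w, ∀ i, G.rightEnd ⟨e, i⟩ = w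
  unc_len : G.len unc = 0
  region : ∀ e e' : Fin m, e ≠ e' →
    (G.vert (e, false) = G.vert (e', false) ∧ G.vert (e, true) = G.vert (e', true) ∨
      G.vert (e, false) = G.vert (e', true) ∧ G.vert (e, true) = G.vert (e', false)) →
    (∀ d : G.Dart, ((mask e ^^^ mask e').testBit (face d).1 =
      (mask e ^^^ mask e').testBit (face (G.rev d)).1) ↔ d.1.1 ≠ e ∧ d.1.1 ≠ e') ∧
    (∃ v, v ≠ G.vert (e, false) ∧ v ≠ G.vert (e, true) ∧
      (mask e ^^^ mask e').testBit (face (G.out (corner v))).1 = true) ∧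
    (∃ v, v ≠ G.vert (e, false) ∧ v ≠ G.vert (e, true) ∧
      (mask e ^^^ mask e').testBit (face (G.out (corner v))).1 = false)

namespace Cert

variable {n m f : ℕ} {G : Data (Fin n) (Fin m)} (C : Cert G f)

include C in
theorem iso : IsEmpty G.Iso := ⟨fun v => v.2 (C.corner v.1) (C.vert_corner v.1)⟩

include C in
theorem card_walk : Nat.card G.Walk = f := by
  have h : Nat.card G.Walk = Nat.card (Fin f) := by
    refine Nat.card_congr
      { toFun := Quot.lift C.face (fun a b hab => by rw [← hab, C.face_next])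
        invFun := fun g => Quot.mk _ (C.rep g)
        left_inv := ?_
        right_inv := ?_ }
    · rintro ⟨d⟩
      show Quot.mk _ (C.rep (C.face d)) = Quot.mk _ d
      obtain ⟨k, hk⟩ := C.orbit d
      have key : ∀ (k : ℕ) (x : G.Dart), (Quot.mk (fun d d' : G.Dart => G.next d = d') x) =
          Quot.mk _ (G.next^[k] x) := by
        intro k
        induction k with
        | zero => intro x; rfl
        | succ k ih =>
          intro x
          rw [Function.iterate_succ_apply, ← ih]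
          exact Quot.sound rfl
      rw [key k.1, hk]
    · intro g
      exact C.face_rep g
  rw [h, Nat.card_eq_fintype_card, Fintype.card_fin]

theorem mk_eq (d : G.Dart) : (Quot.mk _ d : G.Comp) = Quot.mk _ (C.rep (C.face d)) := by
  obtain ⟨k, hk⟩ := C.orbit d
  have key : ∀ (k : ℕ) (x : G.Dart),
      (Quot.mk (fun d d' : G.Dart => G.next d = d' ∨ G.rev d = d') x) =
      Quot.mk _ (G.next^[k] x) := by
    intro k
    induction k with
    | zero => intro x; rfl
    | succ k ih =>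
      intro x
      rw [Function.iterate_succ_apply, ← ih]
      exact Quot.sound (Or.inl rfl)
  conv_lhs => rw [← hk]
  rw [← key k.1]

theorem mk_root (N : ℕ) : ∀ g : Fin f, g.1 ≤ N →
    (Quot.mk _ (C.rep g) : G.Comp) = Quot.mk _ (C.rep ⟨0, C.pos⟩) := by
  induction N with
  | zero =>
    intro g hg
    have : g = ⟨0, C.pos⟩ := Fin.ext (by simpa using hg)
    rw [this]
  | succ N ih =>
    intro g hg
    by_cases h0 : g.1 = 0
    · have : g = ⟨0, C.pos⟩ := Fin.ext h0
      rw [this]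
    · obtain ⟨h1, h2⟩ := C.par_face g h0
      rw [← ih (C.face (G.rev (C.par g))) (by omega), ← C.mk_eq]
      conv_lhs => rw [← h1, ← C.mk_eq]
      exact Quot.sound (Or.inr rfl)

include C in
theorem card_comp : Nat.card G.Comp = 1 := by
  rw [Nat.card_eq_one_iff_unique]
  refine ⟨⟨?_⟩, ⟨Quot.mk _ (C.rep ⟨0, C.pos⟩)⟩⟩
  have a : ∀ d, (Quot.mk _ d : G.Comp) = Quot.mk _ (C.rep ⟨0, C.pos⟩) := by
    intro d
    rw [C.mk_eq, C.mk_root f _ (C.face d).2.le]
  rintro ⟨x⟩ ⟨y⟩
  exact (a x).trans (a y).symm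

theorem conn (A : Set (Fin f)) (h : ∀ d, C.face d ∈ A ↔ C.face (G.rev d) ∈ A) :
    A = ∅ ∨ A = Set.univ := by
  have key : ∀ (N : ℕ) (g : Fin f), g.1 ≤ N → (g ∈ A ↔ (⟨0, C.pos⟩ : Fin f) ∈ A) := by
    intro N
    induction N with
    | zero =>
      intro g hg
      have : g = ⟨0, C.pos⟩ := Fin.ext (by simpa using hg)
      rw [this]
    | succ N ih =>
      intro g hg
      by_cases h0 : g.1 = 0
      · have : g = ⟨0, C.pos⟩ := Fin.ext h0
        rw [this]
      · obtain ⟨h1, h2⟩ := C.par_face g h0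
        rw [← ih (C.face (G.rev (C.par g))) (by omega), ← h, h1]
  by_cases h0 : (⟨0, C.pos⟩ : Fin f) ∈ A
  · right
    ext g
    simp [key f g g.2.le, h0]
  · left
    ext g
    simp [key f g g.2.le, h0]

/-- the drawing -/
def drawing : Drawing (Fin n) (Fin m) (Fin f) where
  toData := G
  face := C.face
  loc v := C.face (G.out (C.corner v))
  face_next := C.face_next
  face_loc x := ⟨C.corner (G.vert x), C.vert_corner _, rfl⟩
  face_surj g := Or.inl ⟨C.rep g, C.face_rep g⟩
  euler := by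
    have a := C.card_walk
    have b := C.card_comp
    have c := C.iso
    have c0 : Nat.card G.Iso = 0 := Nat.card_of_isEmpty
    have d := C.euler
    have e1 : Nat.card (Σ e, Fin (G.len e)) = ∑ e, G.len e := by
      rw [Nat.card_eq_fintype_card, Fintype.card_sigma]
      simp
    have e2 : Nat.card (Σ e, Fin (G.len e + 1)) = ∑ e, (G.len e + 1) := by
      rw [Nat.card_eq_fintype_card, Fintype.card_sigma]
      simp
    rw [a, b, c0, e1, e2, Nat.card_eq_fintype_card, Fintype.card_fin]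
    omega
  card_face := by
    have a := C.card_walk
    have b := C.card_comp
    have c := C.iso
    have c0 : Nat.card G.Iso = 0 := Nat.card_of_isEmpty
    rw [a, b, c0, Nat.card_eq_fintype_card, Fintype.card_fin]
  conn := C.conn

include C in
theorem good : Good n m := by
  refine ⟨Fin n, Fin m, Fin f, inferInstance, inferInstance, inferInstance, C.drawing, C.unc,
    by simp, by simp, C.loopless, ⟨C.simple1, ?_⟩, C.fan, ?_, C.unc_len, C.iso, C.card_comp⟩
  · rintro ⟨e, i⟩ ⟨e', j⟩ h1 h2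
    change e = e' at h1
    subst h1
    rw [C.simple2 e i j h2]
  · intro e e' hne hp
    rw [Set.pair_eq_pair_iff] at hp
    obtain ⟨h1, ⟨v, hv1, hv2, hv3⟩, ⟨w, hw1, hw2, hw3⟩⟩ := C.region e e' hne hp
    refine ⟨{g | (C.mask e ^^^ C.mask e').testBit g.1 = true}, ?_, ⟨v, hv1, hv2, hv3⟩,
      ⟨w, hw1, hw2, fun h => ?_⟩⟩
    · intro d
      rw [← h1 d, Set.mem_ofPred_eq, Set.mem_ofPred_eq]
      change (((C.mask e ^^^ C.mask e').testBit (C.face d).1 = true ↔
        (C.mask e ^^^ C.mask e').testBit (C.face (G.rev d)).1 = true)) ↔ _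
      cases (C.mask e ^^^ C.mask e').testBit (C.face d).1 <;>
        cases (C.mask e ^^^ C.mask e').testBit (C.face (G.rev d)).1 <;> simp
    · change (C.mask e ^^^ C.mask e').testBit (C.face (G.out (C.corner w))).1 = true at h
      rw [hw3] at h
      exact absurd h (by simp)

end Cert

end Pool.Agent.U423.FP
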