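import Pool.Agent.Q238.FP.Final

/-!
# Fan-planar multigraphs on three and on four vertices
-/

set_option autoImplicit false

namespace Pool.Agent.Q238.FP.Drawing

variable {V E F : Type} (G : Drawing V E F)

/-- The status of the darts which leave a vertex is the status of the vertex. -/
theorem loc_mem [Finite E] {e e' : E} {A : Set F} (hA : G.Region e e' A) (x : E × Bool)
    (h1 : ∀ b, G.vert (e, b) ≠ G.vert x) (h2 : ∀ b, G.vert (e', b) ≠ G.vert x) :
    G.face (G.out x) ∈ A ↔ G.loc (G.vert x) ∈ A := by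
  obtain ⟨y, hy1, hy2⟩ := G.face_loc x
  rw [← hy2]
  have key : ∀ z w : E × Bool, G.vert z = G.vert x → G.vert w = G.vert x →
      G.face (G.out z) ∈ A → G.face (G.out w) ∈ A := by
    intro z w hz hw h
    refine G.vert_ind (fun d => G.face d ∈ A) (G.out z) (G.out w) (G.mu_rev_out z)
      (G.mu_rev_out w) (by rw [G.hv_rev_out, G.hv_rev_out, hz, hw]) ?_ h
    intro d hd hd' hQ
    obtain ⟨t, ht⟩ := G.exists_out _ hd
    have ht' := G.rev_inj ht
    subst ht'
    rw [G.hv_rev_out, G.hv_rev_out, hz] at hd'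
    show G.face (G.next (G.rev (G.out t))) ∈ A
    rw [G.face_next]
    refine ((hA (G.out t)).2 ⟨?_, ?_⟩).1 hQ
    · intro he
      apply h1 t.2
      rw [← he, ← hd']
      rfl
    · intro he
      apply h2 t.2
      rw [← he, ← hd']
      rfl
  exact ⟨key _ _ rfl hy1, key _ _ hy1 rfl⟩

theorem flip1 {p q r : Prop} (h1 : p ↔ q) (h2 : q ↔ ¬ r) : ¬ (p ↔ r) := by tauto

theorem flip2 {p q r : Prop} (h1 : ¬ (p ↔ q)) (h2 : q ↔ ¬ r) : (p ↔ r) := by tauto

/-- crossing an edge -/
theorem status_step {e e' : E} {A : Set F} (hA : G.Region e e' A) (x : Σ e, Fin (G.len e))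
    (hx : x.1 ≠ e ∧ x.1 ≠ e') (hc : (G.cr x).1 = e ∨ (G.cr x).1 = e') (b : Bool) :
    G.face (G.arr x b) ∈ A ↔ ¬ G.face (G.leave x b) ∈ A := by
  have h1 := G.straight x b
  have h2 : G.face (G.leave x b) = G.face (G.rev (G.next (G.arr x b))) := by
    rw [← h1, G.face_next]
  rw [h2]
  have h3 := hA (G.next (G.arr x b))
  rw [G.face_next] at h3
  have h4 : ¬ (((G.next (G.arr x b)).1.1 ≠ e) ∧ ((G.next (G.arr x b)).1.1 ≠ e')) := by
    rw [G.next_arr, G.ed_leave]
    tauto
  have h5 : ¬ (G.face (G.arr x b) ∈ A ↔ G.face (G.rev (G.next (G.arr x b))) ∈ A) :=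
    fun h => h4 (h3.1 h)
  tauto

/-- crossing another edge -/
theorem status_stay {e e' : E} {A : Set F} (hA : G.Region e e' A) (x : Σ e, Fin (G.len e))
    (hc : (G.cr x).1 ≠ e ∧ (G.cr x).1 ≠ e') (b : Bool) :
    G.face (G.arr x b) ∈ A ↔ G.face (G.leave x b) ∈ A := by
  have h1 := G.straight x b
  have h2 : G.face (G.leave x b) = G.face (G.rev (G.next (G.arr x b))) := by
    rw [← h1, G.face_next]
  rw [h2]
  have h3 := hA (G.next (G.arr x b))
  rw [G.face_next] at h3
  refine h3.2 ?_
  rw [G.next_arr, G.ed_leave]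
  exact hc

theorem card_two_lt (hh : G.NonHomotopic) [Finite V] {e e' : E} (hne : e ≠ e')
    (hp : ({G.vert (e, false), G.vert (e, true)} : Set V) =
      {G.vert (e', false), G.vert (e', true)}) (hl : G.Loopless) : 4 ≤ Nat.card V := by
  classical
  have : Fintype V := Fintype.ofFinite V
  obtain ⟨A, hA, ⟨v, hv1, hv2, hv3⟩, ⟨w, hw1, hw2, hw3⟩⟩ := hh e e' hne hp
  have hvw : v ≠ w := by
    rintro rfl
    exact hw3 hv3
  have h4 : ({G.vert (e, false), G.vert (e, true), v, w} : Finset V).card = 4 := by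
    rw [Finset.card_insert_of_notMem, Finset.card_insert_of_notMem, Finset.card_insert_of_notMem,
      Finset.card_singleton]
    · simpa using hvw
    · simp only [Finset.mem_insert, Finset.mem_singleton, not_or]
      exact ⟨hv2.symm, hw2.symm⟩
    · simp only [Finset.mem_insert, Finset.mem_singleton, not_or]
      exact ⟨hl e, hv1.symm, hw1.symm⟩
  rw [Nat.card_eq_fintype_card, ← h4]
  exact Finset.card_le_univ _

/-- three vertices -/
theorem card_le_three [Finite V] [Finite E] (hl : G.Loopless) (hh : G.NonHomotopic)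
    (h3 : Nat.card V = 3) : Nat.card E ≤ 3 := by
  classical
  have : Fintype V := Fintype.ofFinite V
  have : Fintype E := Fintype.ofFinite E
  have hinj : Function.Injective (fun e : E =>
      (⟨s(G.vert (e, false), G.vert (e, true)), by
        rw [Sym2.mk_isDiag_iff]; exact hl e⟩ : {a : Sym2 V // ¬ a.IsDiag})) := by
    intro e e' h
    by_contra hne
    have h' := congrArg Subtype.val h
    dsimp only at h'
    have h1 := G.card_two_lt hh hne (by
      rw [Sym2.eq_iff] at h'
      rcases h' with ⟨h1, h2⟩ | ⟨h1, h2⟩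
      · rw [h1, h2]
      · rw [h1, h2, Set.pair_comm]) hl
    omega
  have h1 := Fintype.card_le_of_injective _ hinj
  rw [Sym2.card_subtype_not_diag] at h1
  rw [Nat.card_eq_fintype_card] at h3 ⊢
  rw [h3] at h1
  exact h1

/-- With four vertices every edge has at most one crossing point. -/
theorem len_le_one [Finite V] [Finite E] (hl : G.Loopless) (hs : G.Simple) (hh : G.NonHomotopic)
    (h4 : Nat.card V = 4) (e : E) : G.len e ≤ 1 := by
  classical
  have iV : Fintype V := Fintype.ofFinite V
  by_contra hlen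
  push Not at hlen
  have h0 : 0 < G.len e := by omega
  have h1 : 1 < G.len e := by omega
  set x0 : Σ e, Fin (G.len e) := ⟨e, ⟨0, h0⟩⟩ with hx0
  set x1 : Σ e, Fin (G.len e) := ⟨e, ⟨1, h1⟩⟩ with hx1
  have hne : (G.cr x0).1 ≠ (G.cr x1).1 := by
    intro h
    have := hs.2 x0 x1 rfl h
    rw [hx0, hx1] at this
    simp at this
  set a := G.vert (e, false) with ha
  set b := G.vert (e, true) with hb
  have hab : a ≠ b := hl e
  -- the ends of a crossing edge
  have hends : ∀ x : Σ e, Fin (G.len e), x.1 = e → ∀ c, G.vert ((G.cr x).1, c) ≠ a ∧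
      G.vert ((G.cr x).1, c) ≠ b := by
    intro x hx c
    constructor
    · intro h
      exact hs.1 x false c (by rw [hx, h])
    · intro h
      exact hs.1 x true c (by rw [hx, h])
  have huniv : ∀ c d v : V, c ≠ a → c ≠ b → d ≠ a → d ≠ b → c ≠ d → v = a ∨ v = b ∨ v = c ∨ v = d := by
    intro c d v hc1 hc2 hd1 hd2 hcd
    by_contra hcon
    push Not at hcon
    obtain ⟨g1, g2, g3, g4⟩ := hcon
    have h5 : ({a, b, c, d, v} : Finset V).card = 5 := by
      rw [Finset.card_insert_of_notMem, Finset.card_insert_of_notMem,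
        Finset.card_insert_of_notMem, Finset.card_insert_of_notMem, Finset.card_singleton]
      · simpa using g4.symm
      · simp only [Finset.mem_insert, Finset.mem_singleton, not_or]
        exact ⟨hcd, g3.symm⟩
      · simp only [Finset.mem_insert, Finset.mem_singleton, not_or]
        exact ⟨hc2.symm, hd2.symm, g2.symm⟩
      · simp only [Finset.mem_insert, Finset.mem_singleton, not_or]
        exact ⟨hab, hc1.symm, hd1.symm, g1.symm⟩
    have h6 := Finset.card_le_univ ({a, b, c, d, v} : Finset V)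
    rw [h5, ← Nat.card_eq_fintype_card, h4] at h6
    omega
  set f0 := (G.cr x0).1 with hf0
  set f1 := (G.cr x1).1 with hf1
  have k0 := hends x0 rfl
  have k1 := hends x1 rfl
  rw [← hf0] at k0
  rw [← hf1] at k1
  have hpair : ({G.vert (f0, false), G.vert (f0, true)} : Set V) =
      {G.vert (f1, false), G.vert (f1, true)} := by
    have u := fun v => huniv (G.vert (f0, false)) (G.vert (f0, true)) v (k0 false).1 (k0 false).2
      (k0 true).1 (k0 true).2 (hl f0)
    have u1 := u (G.vert (f1, false))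
    have u2 := u (G.vert (f1, true))
    have g1 := k1 false
    have g2 := k1 true
    have g3 := hl f1
    rcases u1 with u1 | u1 | u1 | u1
    · exact absurd u1 g1.1
    · exact absurd u1 g1.2
    · rcases u2 with u2 | u2 | u2 | u2
      · exact absurd u2 g2.1
      · exact absurd u2 g2.2
      · exact absurd (u1.trans u2.symm) g3
      · rw [u1, u2]
    · rcases u2 with u2 | u2 | u2 | u2
      · exact absurd u2 g2.1
      · exact absurd u2 g2.2
      · rw [u1, u2, Set.pair_comm]
      · exact absurd (u1.trans u2.symm) g3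
  obtain ⟨A, hA, ⟨v, hv1, hv2, hv3⟩, ⟨w, hw1, hw2, hw3⟩⟩ := hh f0 f1 hne hpair
  have hvw : v ≠ w := by
    rintro rfl
    exact hw3 hv3
  -- `e` is not one of the two edges
  have he0 : e ≠ f0 := by
    intro h
    exact (k0 false).1 (by rw [← h])
  have he1 : e ≠ f1 := by
    intro h
    exact (k1 false).1 (by rw [← h])
  -- the status of the two ends
  have hva : v = a ∨ v = b := by
    rcases huniv _ _ v (k0 false).1 (k0 false).2 (k0 true).1 (k0 true).2 (hl f0) with h | h | h | h
    · exact Or.inl h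
    · exact Or.inr h
    · exact absurd h hv1
    · exact absurd h hv2
  have hwa : w = a ∨ w = b := by
    rcases huniv _ _ w (k0 false).1 (k0 false).2 (k0 true).1 (k0 true).2 (hl f0) with h | h | h | h
    · exact Or.inl h
    · exact Or.inr h
    · exact absurd h hw1
    · exact absurd h hw2
  have hdiff : ¬ (G.loc a ∈ A ↔ G.loc b ∈ A) := by
    rcases hva with rfl | rfl <;> rcases hwa with h | h
    · exact absurd h.symm hvw
    · rw [← h]; tauto
    · rw [← h]; tauto
    · exact absurd h.symm hvw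
  apply hdiff
  have sa := G.loc_mem hA (e, false) (fun c => (k0 c).1) (fun c => (k1 c).1)
  have sb := G.loc_mem hA (e, true) (fun c => (k0 c).2) (fun c => (k1 c).2)
  rw [← ha] at sa
  rw [← hb] at sb
  rw [← sa, ← sb]
  have sb2 : G.face (G.out (e, true)) ∈ A ↔ G.face (G.rev (G.out (e, true))) ∈ A :=
    (hA (G.out (e, true))).2 ⟨he0, he1⟩
  rw [sb2]
  -- walk along `e`
  have hcr : ∀ (i : ℕ) (hi : i < G.len e), 2 ≤ i → (G.cr ⟨e, ⟨i, hi⟩⟩).1 ≠ f0 ∧
      (G.cr ⟨e, ⟨i, hi⟩⟩).1 ≠ f1 := by
    intro i hi h2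
    constructor
    · intro h
      have := hs.2 ⟨e, ⟨i, hi⟩⟩ x0 rfl h
      rw [hx0] at this
      simp at this
      omega
    · intro h
      have := hs.2 ⟨e, ⟨i, hi⟩⟩ x1 rfl h
      rw [hx1] at this
      simp at this
      omega
  have walk : ∀ (i : ℕ) (hi : i < G.len e + 1), (i = 1 ∧ ¬ (G.face (G.out (e, false)) ∈ A ↔
      G.face (⟨e, ⟨i, hi⟩⟩, true) ∈ A)) ∨ (i ≠ 1 ∧ (G.face (G.out (e, false)) ∈ A ↔
      G.face (⟨e, ⟨i, hi⟩⟩, true) ∈ A)) := by
    intro i
    induction i with
    | zero =>
      intro hi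
      right
      exact ⟨by omega, Iff.rfl⟩
    | succ i ih =>
      intro hi
      have hi' : i < G.len e := by omega
      have h5 := ih (by omega)
      have ea : G.arr ⟨e, ⟨i, hi'⟩⟩ true = (⟨e, ⟨i, by omega⟩⟩, true) := by
        rw [G.arr_true]; rfl
      have el : G.leave ⟨e, ⟨i, hi'⟩⟩ true = (⟨e, ⟨i + 1, hi⟩⟩, true) := by
        rw [G.leave_true]; rfl
      rcases Nat.lt_or_ge i 2 with h6 | h6
      · have h7 : (G.cr ⟨e, ⟨i, hi'⟩⟩).1 = f0 ∨ (G.cr ⟨e, ⟨i, hi'⟩⟩).1 = f1 := by
          interval_cases i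
          · left; rfl
          · right; rfl
        have h8 := G.status_step hA ⟨e, ⟨i, hi'⟩⟩ ⟨he0, he1⟩ h7 true
        rw [ea, el] at h8
        interval_cases i
        · left
          refine ⟨rfl, ?_⟩
          rcases h5 with h5 | h5
          · omega
          · exact flip1 h5.2 h8
        · right
          refine ⟨by omega, ?_⟩
          rcases h5 with h5 | h5
          · exact flip2 h5.2 h8
          · omega
      · have h8 := G.status_stay hA ⟨e, ⟨i, hi'⟩⟩ (hcr i hi' h6) true
        rw [ea, el] at h8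
        right
        refine ⟨by omega, ?_⟩
        rcases h5 with h5 | h5
        · omega
        · exact h5.2.trans h8
  have hlast := walk (G.len e) (by omega)
  have hrev : G.rev (G.out (e, true)) = (⟨e, ⟨G.len e, by omega⟩⟩, true) := by
    simp only [Data.rev, Data.out, Bool.not_true, Bool.not_false, if_true]
    rfl
  rw [hrev]
  rcases hlast with h | h
  · omega
  · exact h.2

end Pool.Agent.Q238.FP.Drawing

namespace Pool.Agent.Q238.FP.Core

variable {D E V : Type} (C : Core D E V)

open Classical in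
/-- sums over the boundary walks -/
theorem fiber_sum' [Fintype D] (w : D → ℤ) (d : D) : ∃ k, 0 < k ∧ C.n^[k] d = d ∧
    (∀ j, 0 < j → j < k → C.n^[j] d ≠ d) ∧
    ∑ x ∈ Finset.univ.filter (fun x => (Quot.mk _ x : C.Orb) = Quot.mk _ d), w x =
      ∑ i ∈ Finset.range k, w (C.n^[i] d) := by
  have hex := C.exists_period d
  set k := Nat.find hex with hk
  have hks := Nat.find_spec hex
  rw [← hk] at hks
  have hmin : ∀ j, 0 < j → j < k → C.n^[j] d ≠ d := fun j h1 h2 h3 =>
    Nat.find_min hex h2 ⟨h1, h3⟩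
  refine ⟨k, hks.1, hks.2, hmin, ?_⟩
  symm
  apply Finset.sum_bij (fun i _ => C.n^[i] d)
  · intro i _
    simp only [Finset.mem_filter, Finset.mem_univ, true_and]
    exact C.mk_iter d i
  · have key : ∀ i j, i < j → j < k → C.n^[i] d ≠ C.n^[j] d := by
      intro i j h1 h2 h3
      apply hmin (j - i) (by omega) (by omega)
      apply C.iter_inj i
      rw [← Function.iterate_add_apply, show i + (j - i) = j by omega, h3]
    intro i hi j hj hij
    rw [Finset.mem_range] at hi hj
    rcases lt_trichotomy i j with h1 | h1 | h1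
    · exact absurd hij (key i j h1 hj)
    · exact h1
    · exact absurd hij.symm (key j i h1 hi)
  · intro x hx
    simp only [Finset.mem_filter, Finset.mem_univ, true_and] at hx
    obtain ⟨i, hi⟩ := C.mk_eq hx.symm
    exact ⟨i % k, Finset.mem_range.2 (Nat.mod_lt _ hks.1), by rw [C.iter_mod hks.2, hi]⟩
  · intro i _
    rfl

open Classical in
/-- weights for drawings in which every edge is crossed at most once -/
noncomputable def w1 (d : D) : ℤ := if C.mu (C.r d) = 0 then 3 else 2

theorem w1_ge (d : D) : 2 ≤ C.w1 d := by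
  unfold w1
  split_ifs <;> norm_num

theorem w1_pair (h : ∀ d, C.mu d + C.mu (C.r d) ≤ 1) (d : D) :
    5 ≤ C.w1 d + C.w1 (C.n d) := by
  have h1 := C.w1_ge d
  have h2 := C.w1_ge (C.n d)
  by_cases h0 : C.mu (C.r d) = 0
  · have : C.w1 d = 3 := by
      unfold w1
      rw [if_pos h0]
    omega
  · have h3 : C.mu d = 0 := by
      have := h d
      omega
    have h4 := (C.real_mu d).1 h3
    have : C.w1 (C.n d) = 3 := by
      unfold w1
      rw [if_pos h4]
    omega

theorem w1_orbit (h : ∀ d, C.mu d + C.mu (C.r d) ≤ 1) {d : D} {k : ℕ} (hs : C.sg d) (hk : 0 < k)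
    (h' : C.n^[k] d = d) : 8 ≤ ∑ i ∈ Finset.range k, C.w1 (C.n^[i] d) := by
  have hk1 : k ≠ 1 := by
    rintro rfl
    exact C.no1 d h'
  have hk2 : k ≠ 2 := by
    rintro rfl
    exact C.no2 hs h'
  rcases Nat.lt_or_ge k 4 with h4 | h4
  · have : k = 3 := by omega
    subst this
    simp only [Finset.sum_range_succ, Finset.sum_range_zero]
    have e1 := C.w1_pair h (C.n^[0] d)
    have e2 := C.w1_pair h (C.n^[1] d)
    have e3 := C.w1_pair h (C.n^[2] d)
    rw [← Function.iterate_succ_apply' C.n] at e1 e2 e3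
    rw [show C.n^[Nat.succ 2] d = d from h'] at e3
    have e4 : C.n^[0] d = d := rfl
    rw [e4] at e1 ⊢
    have e5 : Nat.succ 0 = 1 := rfl
    have e6 : Nat.succ 1 = 2 := rfl
    rw [e5] at e1
    rw [e6] at e2
    omega
  · have h5 : (k : ℤ) * 2 ≤ ∑ i ∈ Finset.range k, C.w1 (C.n^[i] d) := by
      have := Finset.card_nsmul_le_sum (Finset.range k) (fun i => C.w1 (C.n^[i] d)) 2
        (fun i _ => C.w1_ge _)
      simpa using this
    have h6 : (4 : ℤ) ≤ k := by exact_mod_cast h4
    linarith

open Classical in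
theorem main1 [Fintype D] [Fintype C.Orb] (h : ∀ d, C.mu d + C.mu (C.r d) ≤ 1)
    (Q : C.Orb → Prop) (hQ : ∀ d : D, Q (Quot.mk _ d) → C.sg d) :
    8 * ((Finset.univ.filter Q).card : ℤ) ≤
      3 * ((Finset.univ.filter (fun x => C.mu (C.r x) = 0)).card : ℤ) +
        2 * ((Finset.univ.filter (fun x => ¬ C.mu (C.r x) = 0)).card : ℤ) := by
  have h0 : ∑ x, C.w1 x = 3 * ((Finset.univ.filter (fun x => C.mu (C.r x) = 0)).card : ℤ) +
        2 * ((Finset.univ.filter (fun x => ¬ C.mu (C.r x) = 0)).card : ℤ) := by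
    unfold w1
    rw [Finset.sum_ite]
    simp only [Finset.sum_const, nsmul_eq_mul]
    ring
  rw [← h0]
  have h1 := Finset.sum_fiberwise (Finset.univ : Finset D) (fun x => (Quot.mk _ x : C.Orb)) C.w1
  rw [← h1]
  have h2 : ∑ o ∈ Finset.univ.filter Q, (8 : ℤ) ≤
      ∑ o ∈ Finset.univ.filter Q, ∑ x ∈ Finset.univ.filter
        (fun x => (Quot.mk _ x : C.Orb) = o), C.w1 x := by
    apply Finset.sum_le_sum
    intro o ho
    simp only [Finset.mem_filter, Finset.mem_univ, true_and] at ho
    induction o using Quot.ind with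
    | mk d =>
      obtain ⟨k, hk, hk1, hk2, hk3⟩ := C.fiber_sum' C.w1 d
      rw [hk3]
      exact C.w1_orbit h (hQ d ho) hk hk1
  have h3 : ∑ o ∈ Finset.univ.filter Q, ∑ x ∈ Finset.univ.filter
        (fun x => (Quot.mk _ x : C.Orb) = o), C.w1 x ≤
      ∑ o : C.Orb, ∑ x ∈ Finset.univ.filter (fun x => (Quot.mk _ x : C.Orb) = o), C.w1 x := by
    apply Finset.sum_le_sum_of_subset_of_nonneg (Finset.filter_subset _ _)
    intro o _ _
    apply Finset.sum_nonneg
    intro x _
    have := C.w1_ge x
    linarith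
  refine le_trans ?_ (le_trans h2 h3)
  rw [Finset.sum_const, nsmul_eq_mul]
  linarith

end Pool.Agent.Q238.FP.Core

namespace Pool.Agent.Q238.FP.Drawing

variable {V E F : Type} (G : Drawing V E F)

open Classical in
/-- four vertices -/
theorem card_le_eight [Finite V] [Finite E] [Finite F] (hl : G.Loopless) (hs : G.Simple)
    (hf : G.FanPlanar) (hh : G.NonHomotopic) (h4 : Nat.card V = 4) : Nat.card E ≤ 8 := by
  have iE : Fintype E := Fintype.ofFinite E
  have iV : Fintype V := Fintype.ofFinite V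
  rcases isEmpty_or_nonempty E with hE | hE
  · simp
  have h3' : ∀ a b : V, ∃ c, c ≠ a ∧ c ≠ b := by
    intro a b
    by_contra hc
    push Not at hc
    have : (Finset.univ : Finset V) ⊆ {a, b} := by
      intro c _
      simp only [Finset.mem_insert, Finset.mem_singleton]
      by_cases hca : c = a
      · exact Or.inl hca
      · exact Or.inr (hc c hca)
    have h4' := Finset.card_le_card this
    have h5 := Finset.card_le_two (a := a) (b := b)
    rw [Finset.card_univ, ← Nat.card_eq_fintype_card, h4] at h4'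
    omega
  have iF : Fintype F := Fintype.ofFinite F
  have iD : Fintype G.Dart := Fintype.ofFinite _
  have iW : Fintype G.Walk := Fintype.ofFinite _
  have iI : Fintype G.Iso := Fintype.ofFinite _
  have m := @Core.main1 _ _ _ (G.toCore hl hs hf hh h3') iD iW (fun d => by
    have h1 := G.mu_add d
    have h2 := G.len_le_one hl hs hh h4 d.1.1
    show G.mu d + G.mu (G.rev d) ≤ 1
    omega) G.SgW (fun d => (G.sgW_mk d).1)
  change 8 * ((Finset.univ.filter G.SgW).card : ℤ) ≤
      3 * ((Finset.univ.filter (fun x : G.Dart => G.mu (G.rev x) = 0)).card : ℤ) +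
        2 * ((Finset.univ.filter (fun x : G.Dart => ¬ G.mu (G.rev x) = 0)).card : ℤ) at m
  have e1 := G.card_real
  have e2 : (Finset.univ.filter (fun x : G.Dart => G.mu (G.rev x) = 0)).card +
      (Finset.univ.filter (fun x : G.Dart => ¬ G.mu (G.rev x) = 0)).card = Fintype.card G.Dart := by
    rw [Finset.card_filter_add_card_filter_not, Finset.card_univ]
  have e4 := G.card_dart
  have e5 := G.card_seg
  have e6 := G.faces
  have e7 := G.euler
  have e8 := G.card_face
  rw [Nat.card_eq_fintype_card (α := G.Walk), Nat.card_eq_fintype_card (α := G.Iso)] at e7 e8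
  rw [Nat.card_eq_fintype_card (α := F)] at e8
  rw [h4] at e7
  rw [Nat.card_eq_fintype_card]
  omega

end Pool.Agent.Q238.FP.Drawing
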