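import Pool.Agent.U423.FP.Good

/-!
# Tables for explicit drawings
-/

set_option autoImplicit false

namespace Pool.Agent.U423.FP

open Pool.Agent.Q238.FP

/-- entry number `i` of a table of bytes -/
def lk (T i : ℕ) : ℕ := (T >>> (8 * i)) % 256

/-- a table of vertices of edge ends -/
def tvert (n : ℕ) [NeZero n] {m : ℕ} (T : ℕ) (x : Fin m × Bool) : Fin n :=
  Fin.ofNat n (lk T (2 * x.1.1 + x.2.toNat))

/-- a table of numbers of crossing points -/
def tlen {m : ℕ} (T : ℕ) (e : Fin m) : ℕ := lk T e.1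

/-- a table of crossing points -/
def tcr {m : ℕ} [NeZero m] (L CE CI : ℕ) (x : Σ e : Fin m, Fin (tlen L e)) :
    Σ e : Fin m, Fin (tlen L e) :=
  if h : lk CI (8 * x.1.1 + x.2.1) < tlen L (Fin.ofNat m (lk CE (8 * x.1.1 + x.2.1))) then
    ⟨Fin.ofNat m (lk CE (8 * x.1.1 + x.2.1)), ⟨lk CI (8 * x.1.1 + x.2.1), h⟩⟩
  else x

/-- a table of sides -/
def tleft {m : ℕ} {L : ℕ} (T : ℕ) (x : Σ e : Fin m, Fin (tlen L e)) : Bool :=
  Nat.beq (lk T (8 * x.1.1 + x.2.1)) 1

/-- a table of edge ends -/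
def tend {m : ℕ} [NeZero m] (T : ℕ) (x : Fin m × Bool) : Fin m × Bool :=
  (Fin.ofNat m (lk T (2 * x.1.1 + x.2.toNat) / 2), Nat.beq (lk T (2 * x.1.1 + x.2.toNat) % 2) 1)

/-- a table of edge ends -/
def tcorner {n m : ℕ} [NeZero m] (T : ℕ) (v : Fin n) : Fin m × Bool :=
  (Fin.ofNat m (lk T v.1 / 2), Nat.beq (lk T v.1 % 2) 1)

/-- a table of faces -/
def tface {V : Type} {m : ℕ} {G : Data V (Fin m)} (f : ℕ) [NeZero f] (T : ℕ) (d : G.Dart) :
    Fin f :=
  Fin.ofNat f (lk T (2 * (8 * d.1.1.1 + d.1.2.1) + d.2.toNat))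

/-- a table of darts -/
def tdart {V : Type} {m f : ℕ} [NeZero m] (G : Data V (Fin m)) (T I : ℕ) (g : Fin f) :
    G.Dart :=
  (⟨Fin.ofNat m (lk T g.1), Fin.ofNat (G.len (Fin.ofNat m (lk T g.1)) + 1) (lk I g.1 / 2)⟩,
    Nat.beq (lk I g.1 % 2) 1)

/-- a table of regions -/
def tmask {m : ℕ} (T : ℕ) (e : Fin m) : ℕ := (T >>> (64 * e.1)) % 18446744073709551616

theorem rot_vert_of {n m : ℕ} {vert : Fin m × Bool → Fin n} (rot : Equiv.Perm (Fin m × Bool))
    (corner : Fin n → Fin m × Bool) (h1 : ∀ x, vert (rot x) = vert x)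
    (h2 : ∀ x, ∃ k : Fin 12, rot^[k.1] (corner (vert x)) = x) (x y : Fin m × Bool) :
    rot.SameCycle x y ↔ vert x = vert y := by
  have key : ∀ (k : ℕ) (z : Fin m × Bool), rot.SameCycle z (rot^[k] z) := by
    intro k
    induction k with
    | zero => intro z; exact Equiv.Perm.SameCycle.refl _ _
    | succ k ih =>
      intro z
      rw [Function.iterate_succ_apply]
      exact (Equiv.Perm.sameCycle_apply_left.1 (ih (rot z)))
  constructor
  · intro h
    obtain ⟨i, hi⟩ := h.exists_nat_pow_eq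
    rw [← hi]
    clear hi h
    induction i with
    | zero => rfl
    | succ i ih => rw [pow_succ', Equiv.Perm.mul_apply, h1, ← ih]
  · intro h
    obtain ⟨k, hk⟩ := h2 x
    obtain ⟨l, hl⟩ := h2 y
    have a := key k.1 (corner (vert x))
    have b := key l.1 (corner (vert y))
    rw [hk] at a
    rw [hl, ← h] at b
    exact a.symm.trans b

end Pool.Agent.U423.FP
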